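import Mathlib

/-!
Typical sets are minimal: the abstract Baire category theorem.

`T`, `S` compact spaces, `f : T × S → E` continuous; a set `A` is `f`-universal when it contains
a translate of `f(t, S)` for every `t`.
-/

open TopologicalSpace Metric Set Filter
open scoped ENNReal NNReal Topology

namespace Pool.Agent.Helper184.TM

variable {E : Type*} [NormedAddCommGroup E]
variable {T S : Type*}

/-- `A` contains a translate of `{f (t, s) : s}` for every `t`. -/
def IsUniv (f : T × S → E) (A : Set E) : Prop :=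
  ∀ t, ∃ x : E, ∀ s, x + f (t, s) ∈ A

/-- The space of compact universal sets, with the Hausdorff metric. -/
abbrev USpace (f : T × S → E) : Type _ :=
  {K : NonemptyCompacts E // IsUniv f (K : Set E)}

theorem IsUniv.mono {f : T × S → E} {A B : Set E} (hA : IsUniv f A) (h : A ⊆ B) :
    IsUniv f B := fun t => by
  obtain ⟨x, hx⟩ := hA t
  exact ⟨x, fun s => h (hx s)⟩

/-- Compact sets close to `K` in the Hausdorff metric stay in an open set containing `K`. -/
theorem subset_of_close (K : NonemptyCompacts E) {G : Set E} (hG : IsOpen G)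
    (hK : (K : Set E) ⊆ G) :
    ∃ δ > 0, ∀ K' : NonemptyCompacts E, dist K' K < δ → (K' : Set E) ⊆ G := by
  obtain ⟨δ, hδ, h⟩ := K.isCompact.exists_thickening_subset_open hG hK
  refine ⟨δ, hδ, fun K' hK' y hy => h ?_⟩
  rw [NonemptyCompacts.dist_eq] at hK'
  have hfin : hausdorffEDist (K' : Set E) (K : Set E) ≠ ⊤ :=
    hausdorffEDist_ne_top_of_nonempty_of_bounded K'.nonempty K.nonempty
      K'.isCompact.isBounded K.isCompact.isBounded
  obtain ⟨z, hz, hyz⟩ := exists_dist_lt_of_hausdorffDist_lt hy hK' hfin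
  exact mem_thickening_iff.2 ⟨z, hz, hyz⟩

theorem isOpen_subset_open {G : Set E} (hG : IsOpen G) :
    IsOpen {K : NonemptyCompacts E | (K : Set E) ⊆ G} := by
  rw [Metric.isOpen_iff]
  intro K hK
  obtain ⟨δ, hδ, h⟩ := subset_of_close K hG hK
  exact ⟨δ, hδ, fun K' hK' => h K' hK'⟩

theorem hfin (K K' : NonemptyCompacts E) :
    hausdorffEDist (K : Set E) (K' : Set E) ≠ ⊤ :=
  hausdorffEDist_ne_top_of_nonempty_of_bounded K.nonempty K'.nonempty
      K.isCompact.isBounded K'.isCompact.isBounded

theorem isClosed_univ [ProperSpace E] [Nonempty S] (f : T × S → E) :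
    IsClosed {K : NonemptyCompacts E | IsUniv f (K : Set E)} := by
  apply IsSeqClosed.isClosed
  intro u K hu hlim t
  obtain ⟨s0⟩ := (inferInstance : Nonempty S)
  choose x hx using fun n => hu n t
  set C : Set E := (fun y => y - f (t, s0)) '' cthickening 1 (K : Set E) with hC
  have hCc : IsCompact C := (K.isCompact.cthickening).image (by fun_prop)
  have hdist : Tendsto (fun n => dist (u n) K) atTop (𝓝 0) := tendsto_iff_dist_tendsto_zero.1 hlim
  have hev : ∀ᶠ n in atTop, x n ∈ C := by
    filter_upwards [hdist.eventually (gt_mem_nhds one_pos)] with n hn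
    rw [NonemptyCompacts.dist_eq] at hn
    obtain ⟨z, hz, hyz⟩ := exists_dist_lt_of_hausdorffDist_lt (hx n s0) hn (hfin _ _)
    refine ⟨x n + f (t, s0), thickening_subset_cthickening _ _ (mem_thickening_iff.2 ⟨z, hz, hyz⟩), ?_⟩
    simp
  obtain ⟨a, -, φ, hφ, hφa⟩ := hCc.isSeqCompact.subseq_of_frequently_in hev.frequently
  refine ⟨a, fun s => ?_⟩
  have h1 : ∀ n, infDist (x (φ n) + f (t, s)) (K : Set E) ≤ dist (u (φ n)) K := fun n => by
    rw [NonemptyCompacts.dist_eq]
    exact infDist_le_hausdorffDist_of_mem (hx (φ n) s) (hfin _ _)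
  have h2 : Tendsto (fun n => infDist (x (φ n) + f (t, s)) (K : Set E)) atTop
      (𝓝 (infDist (a + f (t, s)) (K : Set E))) :=
    ((continuous_infDist_pt (K : Set E)).tendsto _).comp (hφa.add tendsto_const_nhds)
  have h3 : infDist (a + f (t, s)) (K : Set E) ≤ 0 :=
    le_of_tendsto_of_tendsto' h2 (hdist.comp hφ.tendsto_atTop) h1
  have h4 : infDist (a + f (t, s)) (K : Set E) = 0 := le_antisymm h3 infDist_nonneg
  exact (K.isCompact.isClosed.mem_iff_infDist_zero K.nonempty).2 h4

end Pool.Agent.Helper184.TM
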