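import Pool.Agent.Helper184.TM.Core

/-!
The density step: if a bounded universal set `A` has open neighbourhoods all of whose finite
unions of translates have property `P`, then compact universal sets having an open neighbourhood
with property `P` are dense.
-/

open TopologicalSpace Metric Set Filter
open scoped ENNReal NNReal Topology

namespace Pool.Agent.Helper184.TM

variable {E : Type*} [NormedAddCommGroup E] [ProperSpace E]
variable {T S : Type*} [TopologicalSpace T] [CompactSpace T] [Nonempty T]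
  [TopologicalSpace S] [CompactSpace S] [Nonempty S]

theorem nhds_unif {f : T × S → E} (hf : Continuous f) (t : T) {e : ℝ} (he : 0 < e) :
    {t' | ∀ s, dist (f (t', s)) (f (t, s)) < e} ∈ 𝓝 t := by
  have h := (isCompact_univ (X := S)).eventually_forall_of_forall_eventually
    (x₀ := t) (P := fun t' s => dist (f (t', s)) (f (t, s)) < e) (fun s _ => by
      have hc : Continuous fun z : T × S => dist (f (z.1, z.2)) (f (t, z.2)) := by fun_prop
      have h0 : dist (f ((t, s).1, (t, s).2)) (f (t, (t, s).2)) < e := by simpa using he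
      exact hc.continuousAt.eventually (gt_mem_nhds h0))
  filter_upwards [h] with t' ht' s using ht' s (mem_univ s)

theorem exists_good {f : T × S → E} (hf : Continuous f) (P : Set E → Prop) {A : Set E}
    (hA : IsUniv f A) (hAb : Bornology.IsBounded A)
    (hP : ∀ V : Finset E, ∃ G : Set E, IsOpen G ∧ A ⊆ G ∧ P (⋃ v ∈ V, (fun y => v + y) '' G))
    (K : NonemptyCompacts E) (hK : IsUniv f (K : Set E)) {ε : ℝ} (hε : 0 < ε) :
    ∃ K' : NonemptyCompacts E, IsUniv f (K' : Set E) ∧ dist K' K ≤ ε ∧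
      ∃ G : Set E, IsOpen G ∧ (K' : Set E) ⊆ G ∧ P G := by
  classical
  obtain ⟨e, he, hee⟩ : ∃ e : ℝ, 0 < e ∧ 3 * e ≤ ε := ⟨ε / 3, by positivity, by linarith⟩
  obtain ⟨s0⟩ := (inferInstance : Nonempty S)
  obtain ⟨t0⟩ := (inferInstance : Nonempty T)
  choose x hx using hA
  choose k hk using hK
  -- positions of A are bounded
  have hxb : Bornology.IsBounded (range x) := by
    have h1 : Bornology.IsBounded (range f) := (isCompact_range hf).isBounded
    obtain ⟨R, hR⟩ := hAb.exists_norm_le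
    obtain ⟨M, hM⟩ := h1.exists_norm_le
    refine (isBounded_iff_forall_norm_le.2 ⟨R + M, ?_⟩)
    rintro _ ⟨t, rfl⟩
    have h2 : x t = (x t + f (t, s0)) - f (t, s0) := by abel
    rw [h2]
    exact (norm_sub_le _ _).trans (add_le_add (hR _ (hx t s0)) (hM _ (mem_range_self _)))
  obtain ⟨C0, -, hC0f, hC0⟩ := hxb.isCompact_closure.finite_cover_balls he
  set C : Finset E := hC0f.toFinset with hCdef
  have hC : ∀ t, ∃ c ∈ C, dist (x t) c < e := fun t => by
    have := hC0 (subset_closure (mem_range_self t))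
    simp only [mem_iUnion, mem_ball] at this
    obtain ⟨c, hc, hd⟩ := this
    exact ⟨c, hC0f.mem_toFinset.2 hc, hd⟩
  obtain ⟨I, hI⟩ := finite_cover_nhds (fun t => nhds_unif hf t he)
  have hI' : ∀ t, ∃ i ∈ I, ∀ s, dist (f (t, s)) (f (i, s)) < e := fun t => by
    have : t ∈ ⋃ i ∈ I, {t' | ∀ s, dist (f (t', s)) (f (i, s)) < e} := hI ▸ mem_univ t
    simpa only [mem_iUnion, exists_prop, mem_setOf_eq] using this
  obtain ⟨D0, hD0K, hD0f, hD0⟩ := K.isCompact.finite_cover_balls he
  set D : Finset E := hD0f.toFinset with hDdef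
  have hDK : ∀ d ∈ D, d ∈ (K : Set E) := fun d hd => hD0K (hD0f.mem_toFinset.1 hd)
  have hD : ∀ y ∈ (K : Set E), ∃ d ∈ D, dist y d < e := fun y hy => by
    have := hD0 hy
    simp only [mem_iUnion, mem_ball] at this
    obtain ⟨c, hc, hd⟩ := this
    exact ⟨c, hD0f.mem_toFinset.2 hc, hd⟩
  set a0 : E := x t0 + f (t0, s0) with ha0
  have ha0A : a0 ∈ A := hx t0 s0
  set V : Finset E := (I ×ˢ C).image (fun p => k p.1 - p.2) ∪ D.image (fun d => d - a0) with hV
  obtain ⟨G, hGo, hAG, hPG⟩ := hP V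
  set G' : Set E := ⋃ v ∈ V, (fun y => v + y) '' G with hG'
  have hG'o : IsOpen G' := isOpen_biUnion fun v _ => (isOpenMap_add_left v) _ hGo
  -- good neighbourhoods
  have hδ : ∀ t, ∃ δ : ℝ, 0 < δ ∧ δ ≤ e ∧ ∀ y : E, (∃ s, dist y (x t + f (t, s)) ≤ δ) → y ∈ G := by
    intro t
    have hc : IsCompact (range fun s => x t + f (t, s)) :=
      isCompact_range (by fun_prop)
    have hsub : (range fun s => x t + f (t, s)) ⊆ G := by
      rintro _ ⟨s, rfl⟩
      exact hAG (hx t s)
    obtain ⟨δ, hδ, h⟩ := hc.exists_thickening_subset_open hGo hsub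
    refine ⟨min (δ / 2) e, by positivity, min_le_right _ _, fun y hy => h ?_⟩
    obtain ⟨s, hs⟩ := hy
    refine mem_thickening_iff.2 ⟨_, mem_range_self s, hs.trans_lt ?_⟩
    exact (min_le_left _ _).trans_lt (by linarith)
  choose δ hδ0 hδe hδG using hδ
  set Q : T → Set T := fun t => {t' | ∀ s, dist (f (t', s)) (f (t, s)) ≤ δ t} with hQ
  have hQc : ∀ t, IsClosed (Q t) := fun t => by
    have : Q t = ⋂ s, {t' | dist (f (t', s)) (f (t, s)) ≤ δ t} := by
      ext t'; simp [hQ]
    rw [this]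
    refine isClosed_iInter fun s => isClosed_le (by fun_prop) continuous_const
  have hQn : ∀ t, Q t ∈ 𝓝 t := fun t => by
    filter_upwards [nhds_unif hf t (hδ0 t)] with t' ht' s using (ht' s).le
  obtain ⟨J, hJ⟩ := finite_cover_nhds hQn
  have hJ' : ∀ t, ∃ j ∈ J, t ∈ Q j := fun t => by
    have : t ∈ ⋃ i ∈ J, Q i := hJ ▸ mem_univ t
    simpa only [mem_iUnion, exists_prop] using this
  choose i hiI hid using hI'
  choose c hcC hcd using hC
  set p : T → E := fun j => (k (i j) - c j) + x j with hp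
  set K1 : Set E := (D : Set E) ∪ ⋃ j ∈ J, (fun q : T × S => p j + f q) '' (Q j ×ˢ univ) with hK1
  have hK1c : IsCompact K1 := by
    refine D.finite_toSet.isCompact.union (J.finite_toSet.isCompact_biUnion fun j _ => ?_)
    exact ((hQc j).isCompact.prod isCompact_univ).image (by fun_prop)
  have hmem : ∀ j ∈ J, ∀ t ∈ Q j, ∀ s, p j + f (t, s) ∈ K1 := fun j hj t ht s => by
    refine Or.inr (mem_biUnion hj ⟨(t, s), ⟨ht, mem_univ _⟩, rfl⟩)
  have hK1u : IsUniv f K1 := fun t => by
    obtain ⟨j, hj, htj⟩ := hJ' t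
    exact ⟨p j, fun s => hmem j hj t htj s⟩
  have hK1n : K1.Nonempty := by
    obtain ⟨y, hy⟩ := hK1u t0
    exact ⟨_, hy s0⟩
  have hK1G : K1 ⊆ G' := by
    rintro y (hy | hy)
    · refine mem_biUnion (show y - a0 ∈ V from ?_) ⟨a0, hAG ha0A, by simp⟩
      exact Finset.mem_union_right _ (Finset.mem_image_of_mem _ hy)
    · simp only [mem_iUnion, exists_prop] at hy
      obtain ⟨j, hj, ⟨t, s⟩, ⟨htj, -⟩, rfl⟩ := hy
      refine mem_biUnion (show k (i j) - c j ∈ V from ?_) ⟨x j + f (t, s), ?_, ?_⟩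
      · refine Finset.mem_union_left _ (Finset.mem_image.2 ⟨(i j, c j), ?_, rfl⟩)
        exact Finset.mem_product.2 ⟨hiI j, hcC j⟩
      · refine hδG j _ ⟨s, ?_⟩
        rw [dist_add_left]
        exact htj s
      · simp only [hp]; abel
  refine ⟨⟨⟨K1, hK1c⟩, hK1n⟩, hK1u, ?_, G', hG'o, hK1G, hPG⟩
  rw [NonemptyCompacts.dist_eq]
  refine hausdorffDist_le_of_mem_dist hε.le ?_ ?_
  · rintro y (hy | hy)
    · exact ⟨y, hDK y hy, by simpa using hε.le⟩
    · simp only [mem_iUnion, exists_prop] at hy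
      obtain ⟨j, hj, ⟨t, s⟩, ⟨htj, -⟩, rfl⟩ := hy
      refine ⟨k (i j) + f (i j, s), hk (i j) s, ?_⟩
      have h1 : dist (p j + f (t, s)) (k (i j) + f (i j, s)) =
          ‖(x j - c j) + ((f (t, s) - f (j, s)) + (f (j, s) - f (i j, s)))‖ := by
        rw [dist_eq_norm]; congr 1; simp only [hp]; abel
      show dist (p j + f (t, s)) (k (i j) + f (i j, s)) ≤ ε
      rw [h1]
      have h2 : ‖x j - c j‖ ≤ e := by rw [← dist_eq_norm]; exact (hcd j).le
      have h3 : ‖f (t, s) - f (j, s)‖ ≤ e := by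
        rw [← dist_eq_norm]; exact (htj s).trans (hδe j)
      have h4 : ‖f (j, s) - f (i j, s)‖ ≤ e := by rw [← dist_eq_norm]; exact (hid j s).le
      calc _ ≤ ‖x j - c j‖ + (‖f (t, s) - f (j, s)‖ + ‖f (j, s) - f (i j, s)‖) :=
            (norm_add_le _ _).trans (by gcongr; exact norm_add_le _ _)
        _ ≤ e + (e + e) := by gcongr
        _ ≤ ε := by linarith
  · intro y hy
    obtain ⟨d, hd, hyd⟩ := hD y hy
    exact ⟨d, Or.inl hd, by linarith⟩

end Pool.Agent.Helper184.TM
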