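import Pool.Agent.Helper184.TM.Gauge

/-!
Typical = minimal for Hausdorff dimension and for lower Minkowski dimension.
-/

open TopologicalSpace Metric Set Filter MeasureTheory
open scoped ENNReal NNReal Topology

namespace Pool.Agent.Helper184.TM

section hausdorff

variable {E : Type*} [NormedAddCommGroup E] [ProperSpace E] [MeasurableSpace E] [BorelSpace E]
variable {T S : Type*} [TopologicalSpace T] [CompactSpace T] [Nonempty T]
  [TopologicalSpace S] [CompactSpace S] [Nonempty S]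

theorem dim_law {f : T × S → E} (hf : Continuous f) :
    ∀ᶠ K : USpace f in residual (USpace f),
      dimH (K.1 : Set E) = ⨅ (A : Set E) (_ : IsUniv f A), dimH A := by
  set κ : ℝ≥0∞ := ⨅ (A : Set E) (_ : IsUniv f A), dimH A with hκ
  have h1 : ∀ q : ℚ, ∀ᶠ K : USpace f in residual (USpace f),
      κ < (Real.toNNReal q : ℝ≥0∞) → dimH (K.1 : Set E) ≤ (Real.toNNReal q : ℝ≥0∞) := by
    intro q
    by_cases hq : κ < (Real.toNNReal q : ℝ≥0∞)
    · obtain ⟨A, hA, hAq⟩ : ∃ A : Set E, IsUniv f A ∧ dimH A < (Real.toNNReal q : ℝ≥0∞) := by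
        rw [hκ] at hq
        simpa only [iInf_lt_iff, exists_prop] using hq
      have h0 : Measure.mkMetric (fun r : ℝ≥0∞ => r ^ ((Real.toNNReal q : ℝ≥0) : ℝ)) A = 0 :=
        hausdorffMeasure_of_dimH_lt hAq
      have h2 := gauge_law hf (h := fun r : ℝ≥0∞ => r ^ ((Real.toNNReal q : ℝ≥0) : ℝ))
        (fun x => ENNReal.continuous_rpow_const.continuousWithinAt) hA h0
      filter_upwards [h2] with K hK _
      refine dimH_le_of_hausdorffMeasure_ne_top (d := Real.toNNReal q) ?_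
      have : μH[((Real.toNNReal q : ℝ≥0) : ℝ)] (K.1 : Set E) = 0 := hK
      rw [this]; exact ENNReal.zero_ne_top
    · exact Eventually.of_forall fun K h => absurd h hq
  filter_upwards [eventually_countable_forall.2 h1] with K hK
  refine le_antisymm ?_ (iInf₂_le _ K.2)
  by_contra hcon
  rw [not_le] at hcon
  obtain ⟨q, -, hq1, hq2⟩ := ENNReal.lt_iff_exists_rat_btwn.1 hcon
  exact absurd (hK q hq1) (not_le.2 hq2)

end hausdorff

section minkowski

variable {n : ℕ}

/-- Lower Minkowski dimension, `n - limsup_{δ → 0+} log |N_δ A| / log δ`. -/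
noncomputable def lowerMinkowski (A : Set (EuclideanSpace ℝ (Fin n))) : EReal :=
  (n : EReal) - limsup (fun δ : ℝ =>
    ((Real.log (volume (thickening δ A)).toReal / Real.log δ : ℝ) : EReal)) (𝓝[>] (0 : ℝ))

theorem vol_pos {A : Set (EuclideanSpace ℝ (Fin n))} (hA : A.Nonempty)
    (hAb : Bornology.IsBounded A) {δ : ℝ} (hδ : 0 < δ) :
    0 < (volume (thickening δ A)).toReal ∧ volume (thickening δ A) ≠ ∞ := by
  have h1 : volume (thickening δ A) ≠ ∞ := (hAb.thickening).measure_lt_top.ne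
  refine ⟨ENNReal.toReal_pos ?_ h1, h1⟩
  exact (isOpen_thickening.measure_pos volume ((thickening_nonempty_iff).2 ⟨hδ, hA⟩)).ne'

/-- upper estimate of the dimension from good scales -/
theorem lowerMinkowski_le {A : Set (EuclideanSpace ℝ (Fin n))} (hA : A.Nonempty)
    (hAb : Bornology.IsBounded A) {q : ℝ}
    (h : ∃ᶠ δ in 𝓝[>] (0 : ℝ), volume (thickening δ A) ≤ ENNReal.ofReal (δ ^ ((n : ℝ) - q))) :
    lowerMinkowski A ≤ (q : EReal) := by
  have h1 : ((((n : ℝ) - q : ℝ)) : EReal) ≤ limsup (fun δ : ℝ =>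
      ((Real.log (volume (thickening δ A)).toReal / Real.log δ : ℝ) : EReal)) (𝓝[>] (0 : ℝ)) := by
    refine le_limsup_of_frequently_le ?_
    have hev : ∀ᶠ δ in 𝓝[>] (0 : ℝ), 0 < δ ∧ δ < 1 := by
      filter_upwards [Ioo_mem_nhdsGT (zero_lt_one' ℝ)] with δ hδ using hδ
    refine (h.and_eventually hev).mono ?_
    rintro δ ⟨hv, hδ0, hδ1⟩
    obtain ⟨hp, hfin⟩ := vol_pos hA hAb hδ0
    have hlog : Real.log δ < 0 := Real.log_neg hδ0 hδ1
    have hv' : (volume (thickening δ A)).toReal ≤ δ ^ ((n : ℝ) - q) :=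
      ENNReal.toReal_le_of_le_ofReal (Real.rpow_nonneg hδ0.le _) hv
    have hl : Real.log (volume (thickening δ A)).toReal ≤ ((n : ℝ) - q) * Real.log δ := by
      rw [← Real.log_rpow hδ0]
      exact Real.log_le_log hp hv'
    rw [EReal.coe_le_coe_iff, le_div_iff_of_neg hlog]
    exact hl
  unfold lowerMinkowski
  calc (n : EReal) - _ ≤ (n : EReal) - ((((n : ℝ) - q : ℝ)) : EReal) := EReal.sub_le_sub le_rfl h1
    _ = (q : EReal) := by
      have : (n : EReal) = ((n : ℝ) : EReal) := by simp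
      rw [this, ← EReal.coe_sub]
      congr 1; ring

/-- good scales from an upper estimate of the dimension -/
theorem frequently_of_lt {A : Set (EuclideanSpace ℝ (Fin n))} (hA : A.Nonempty)
    (hAb : Bornology.IsBounded A) {q : ℝ} (h : lowerMinkowski A < (q : EReal)) :
    ∃ᶠ δ in 𝓝[>] (0 : ℝ), volume (thickening δ A) ≤ ENNReal.ofReal (δ ^ ((n : ℝ) - q)) := by
  have h1 : ((((n : ℝ) - q : ℝ)) : EReal) < limsup (fun δ : ℝ =>
      ((Real.log (volume (thickening δ A)).toReal / Real.log δ : ℝ) : EReal)) (𝓝[>] (0 : ℝ)) := by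
    by_contra hcon
    rw [not_lt] at hcon
    refine absurd h (not_lt.2 ?_)
    unfold lowerMinkowski
    have : (n : EReal) = ((n : ℝ) : EReal) := by simp
    calc (q : EReal) = (n : EReal) - ((((n : ℝ) - q : ℝ)) : EReal) := by
          rw [this, ← EReal.coe_sub]
          congr 1; ring
      _ ≤ _ := EReal.sub_le_sub le_rfl hcon
  have h2 := frequently_lt_of_lt_limsup (by isBoundedDefault) h1
  have hev : ∀ᶠ δ in 𝓝[>] (0 : ℝ), 0 < δ ∧ δ < 1 := by
    filter_upwards [Ioo_mem_nhdsGT (zero_lt_one' ℝ)] with δ hδ using hδ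
  refine (h2.and_eventually hev).mono ?_
  rintro δ ⟨hv, hδ0, hδ1⟩
  obtain ⟨hp, hfin⟩ := vol_pos hA hAb hδ0
  have hlog : Real.log δ < 0 := Real.log_neg hδ0 hδ1
  rw [EReal.coe_lt_coe_iff, lt_div_iff_of_neg hlog] at hv
  rw [← Real.log_rpow hδ0] at hv
  have hv' : (volume (thickening δ A)).toReal ≤ δ ^ ((n : ℝ) - q) :=
    ((Real.log_lt_log_iff hp (Real.rpow_pos_of_pos hδ0 _)).1 hv).le
  exact (ENNReal.le_ofReal_iff_toReal_le hfin (Real.rpow_nonneg hδ0.le _)).2 hv'

end minkowski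

end Pool.Agent.Helper184.TM
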