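import Pool.Agent.Helper184.TM.Dense

/-!
Zero-one law for gauge Hausdorff measures and typical = minimal for Hausdorff dimension.
-/

open TopologicalSpace Metric Set Filter MeasureTheory
open scoped ENNReal NNReal Topology

namespace Pool.Agent.Helper184.TM

section residual

variable {E : Type*} [NormedAddCommGroup E] [ProperSpace E]
variable {T S : Type*} [TopologicalSpace T] [CompactSpace T] [Nonempty T]
  [TopologicalSpace S] [CompactSpace S] [Nonempty S]

theorem residual_good {f : T × S → E} (hf : Continuous f) (P : Set E → Prop) {A : Set E}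
    (hA : IsUniv f A) (hAb : Bornology.IsBounded A)
    (hP : ∀ V : Finset E, ∃ G : Set E, IsOpen G ∧ A ⊆ G ∧ P (⋃ v ∈ V, (fun y => v + y) '' G)) :
    ∀ᶠ K : USpace f in residual (USpace f),
      ∃ G : Set E, IsOpen G ∧ ((K.1 : NonemptyCompacts E) : Set E) ⊆ G ∧ P G := by
  refine residual_of_dense_open ?_ ?_
  · have h : {K : USpace f | ∃ G : Set E, IsOpen G ∧ (K.1 : Set E) ⊆ G ∧ P G} =
        ⋃ (G : Set E) (_ : IsOpen G) (_ : P G),
          (Subtype.val : USpace f → NonemptyCompacts E) ⁻¹' {K | (K : Set E) ⊆ G} := by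
      ext K
      simp only [mem_setOf_eq, mem_iUnion, mem_preimage, exists_prop]
      constructor
      · rintro ⟨G, h1, h2, h3⟩; exact ⟨G, h1, h3, h2⟩
      · rintro ⟨G, h1, h3, h2⟩; exact ⟨G, h1, h2, h3⟩
    rw [h]
    exact isOpen_iUnion fun G => isOpen_iUnion fun hG => isOpen_iUnion fun _ =>
      (isOpen_subset_open hG).preimage continuous_subtype_val
  · rw [Metric.dense_iff]
    intro K r hr
    obtain ⟨K', hu, hd, hG⟩ := exists_good hf P hA hAb hP K.1 K.2 (half_pos hr)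
    refine ⟨⟨K', hu⟩, ?_, hG⟩
    rw [mem_ball, Subtype.dist_eq]
    exact lt_of_le_of_lt hd (half_lt_self hr)

end residual

section gauge

variable {E : Type*} [NormedAddCommGroup E] [ProperSpace E] [MeasurableSpace E] [BorelSpace E]
variable {T S : Type*} [TopologicalSpace T] [CompactSpace T] [Nonempty T]
  [TopologicalSpace S] [CompactSpace S] [Nonempty S]

open OuterMeasure

/-- the approximating outer measure of scale `r`. -/
noncomputable def pr (h : ℝ≥0∞ → ℝ≥0∞) (r : ℝ≥0∞) : OuterMeasure E :=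
  mkMetric'.pre (fun s : Set E => h (ediam s)) r

theorem mk_eq_zero {h : ℝ≥0∞ → ℝ≥0∞} {A : Set E}
    (hA : ∀ m : ℕ, pr h ((m : ℝ≥0∞) + 1)⁻¹ A ≤ ((m : ℝ≥0∞) + 1)⁻¹) :
    Measure.mkMetric h A = 0 := by
  rw [← OuterMeasure.coe_mkMetric]
  have ht := mkMetric'.tendsto_pre_nat (fun s : Set E => h (ediam s)) A
  have hle : ∀ n m : ℕ, n ≤ m → mkMetric'.pre (fun s : Set E => h (ediam s)) (n : ℝ≥0∞)⁻¹ A ≤
      ((m : ℝ≥0∞) + 1)⁻¹ := fun n m hnm => by
    refine le_trans ?_ (hA m)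
    refine mkMetric'.mono_pre _ ?_ A
    refine ENNReal.inv_le_inv.2 ?_
    exact_mod_cast (by omega : n ≤ m + 1)
  have hz : Tendsto (fun m : ℕ => ((m : ℝ≥0∞) + 1)⁻¹) atTop (𝓝 0) := by
    have := (ENNReal.tendsto_inv_nat_nhds_zero).comp (tendsto_add_atTop_nat 1)
    refine this.congr fun m => ?_
    simp
  have hzero : ∀ n : ℕ, mkMetric'.pre (fun s : Set E => h (ediam s)) (n : ℝ≥0∞)⁻¹ A = 0 := fun n => by
    refine le_antisymm (ge_of_tendsto hz ?_) bot_le
    filter_upwards [eventually_ge_atTop n] with m hm using hle n m hm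
  simp only [hzero] at ht
  exact (tendsto_nhds_unique ht tendsto_const_nhds)

/-- enlarge one set. -/
theorem enlarge {h : ℝ≥0∞ → ℝ≥0∞} (hh : ∀ x, ContinuousWithinAt h (Ioi x) x)
    {t : Set E} {r : ℝ≥0∞} (hr : 0 < r) (hrt : r ≠ ∞) (ht : ediam t ≤ r) {η : ℝ≥0∞} (hη : 0 < η) :
    ∃ U : Set E, IsOpen U ∧ t ⊆ U ∧ ediam U ≤ r + r ∧
      (⨆ _ : U.Nonempty, h (ediam U)) ≤ (⨆ _ : t.Nonempty, h (ediam t)) + η := by
  rcases t.eq_empty_or_nonempty with rfl | htn
  · refine ⟨∅, isOpen_empty, subset_rfl, by simp, by simp⟩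
  · set d := ediam t with hd
    have hdt : d ≠ ∞ := ne_top_of_le_ne_top hrt ht
    rcases eq_or_ne (h d) ∞ with hi | hi
    · obtain ⟨ρ, hρ0, hρ⟩ : ∃ ρ : ℝ≥0, 0 < ρ ∧ (2 : ℝ≥0∞) * ρ ≤ r := by
        lift r to ℝ≥0 using hrt
        refine ⟨r / 2, by have : 0 < r := by exact_mod_cast hr
                          positivity, ?_⟩
        have : (2 : ℝ≥0) * (r / 2) = r := by field_simp
        exact_mod_cast this.le
      refine ⟨thickening ρ t, isOpen_thickening, self_subset_thickening (by exact_mod_cast hρ0) _,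
        (ediam_thickening_le ρ).trans (add_le_add ht hρ), ?_⟩
      simp [htn, hi]
    · have h1 : ∀ᶠ y in 𝓝[>] d, h y < h d + η :=
        (hh d).eventually (gt_mem_nhds (ENNReal.lt_add_right hi hη.ne'))
      obtain ⟨u, hu, hu'⟩ := (mem_nhdsGT_iff_exists_Ioo_subset' (hdt.lt_top)).1 h1
      obtain ⟨ρ, hρ0, hρ, hρu⟩ : ∃ ρ : ℝ≥0, 0 < ρ ∧ (2 : ℝ≥0∞) * ρ ≤ r ∧ d + 2 * ρ < u := by
        have h2 : 0 < min r (u - d) := lt_min hr (tsub_pos_of_lt hu)
        obtain ⟨σ, hσ0, hσ⟩ := ENNReal.lt_iff_exists_nnreal_btwn.1 h2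
        refine ⟨σ / 2, ?_, ?_, ?_⟩
        · have : 0 < σ := by exact_mod_cast hσ0
          positivity
        · have : (2 : ℝ≥0∞) * ((σ / 2 : ℝ≥0) : ℝ≥0∞) = σ := by
            have : (2 : ℝ≥0) * (σ / 2) = σ := by field_simp
            exact_mod_cast this
          rw [this]; exact (hσ.trans_le (min_le_left _ _)).le
        · have : (2 : ℝ≥0∞) * ((σ / 2 : ℝ≥0) : ℝ≥0∞) = σ := by
            have : (2 : ℝ≥0) * (σ / 2) = σ := by field_simp
            exact_mod_cast this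
          rw [this]
          exact lt_tsub_iff_left.1 (hσ.trans_le (min_le_right _ _))
      refine ⟨thickening ρ t, isOpen_thickening, self_subset_thickening (by exact_mod_cast hρ0) _,
        (ediam_thickening_le ρ).trans (add_le_add ht hρ), ?_⟩
      simp only [htn, iSup_pos]
      refine iSup_le fun _ => ?_
      have h3 : d ≤ ediam (thickening ρ t) :=
        ediam_mono (self_subset_thickening (by exact_mod_cast hρ0) _)
      rcases h3.eq_or_lt with h4 | h4
      · rw [← h4]; exact le_self_add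
      · exact (hu' ⟨h4, (ediam_thickening_le ρ).trans_lt hρu⟩).le

/-- A null set has fine open covers of small cost. -/
theorem null_cover {h : ℝ≥0∞ → ℝ≥0∞} (hh : ∀ x, ContinuousWithinAt h (Ioi x) x)
    {A : Set E} (hA : Measure.mkMetric h A = 0) {r η : ℝ≥0∞} (hr : 0 < r) (hrt : r ≠ ∞)
    (hη : 0 < η) :
    ∃ U : ℕ → Set E, (∀ n, IsOpen (U n)) ∧ A ⊆ ⋃ n, U n ∧ (∀ n, ediam (U n) ≤ r) ∧
      ∑' n, (⨆ _ : (U n).Nonempty, h (ediam (U n))) ≤ η := by
  have h1 := Measure.mkMetric_apply h A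
  rw [hA] at h1
  have h2 : (⨅ (t : ℕ → Set E) (_ : A ⊆ iUnion t) (_ : ∀ n, ediam (t n) ≤ r / 2),
          ∑' n, ⨆ _ : (t n).Nonempty, h (ediam (t n))) = 0 := by
    refine le_antisymm ?_ bot_le
    rw [h1]
    exact le_iSup₂_of_le (r / 2) (ENNReal.half_pos hr.ne') le_rfl
  have h3 : (⨅ (t : ℕ → Set E) (_ : A ⊆ iUnion t) (_ : ∀ n, ediam (t n) ≤ r / 2),
          ∑' n, ⨆ _ : (t n).Nonempty, h (ediam (t n))) < η / 2 := by
    rw [h2]; exact ENNReal.half_pos hη.ne'
  simp only [iInf_lt_iff] at h3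
  obtain ⟨t, htA, htd, hts⟩ := h3
  obtain ⟨w, hw0, hw⟩ := ENNReal.exists_pos_sum_of_countable' (ENNReal.half_pos hη.ne').ne' ℕ
  have hr2 : r / 2 ≠ ∞ := (ENNReal.div_lt_top hrt (by norm_num)).ne
  choose U hUo hUt hUd hUh using fun n => enlarge (E := E) hh (ENNReal.half_pos hr.ne') hr2 (htd n) (hw0 n)
  refine ⟨U, hUo, htA.trans (iUnion_mono hUt), fun n => (hUd n).trans (ENNReal.add_halves r).le, ?_⟩
  calc ∑' n, (⨆ _ : (U n).Nonempty, h (ediam (U n)))
      ≤ ∑' n, ((⨆ _ : (t n).Nonempty, h (ediam (t n))) + w n) := ENNReal.tsum_le_tsum hUh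
    _ = (∑' n, ⨆ _ : (t n).Nonempty, h (ediam (t n))) + ∑' n, w n := ENNReal.tsum_add
    _ ≤ η / 2 + η / 2 := add_le_add hts.le hw.le
    _ = η := ENNReal.add_halves η

theorem pr_translate_le {h : ℝ≥0∞ → ℝ≥0∞} {r : ℝ≥0∞} {U : Set E} (hU : ediam U ≤ r) (v : E) :
    pr h r ((fun y => v + y) '' U) ≤ ⨆ _ : U.Nonempty, h (ediam U) := by
  rcases U.eq_empty_or_nonempty with rfl | hne
  · simp
  · have h1 : ediam ((fun y => v + y) '' U) = ediam U :=
      (Isometry.of_dist_eq fun a b => by simp : Isometry fun y : E => v + y).ediam_image U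
    have h2 : pr h r ((fun y => v + y) '' U) ≤ h (ediam ((fun y => v + y) '' U)) :=
      mkMetric'.pre_le (m := fun s : Set E => h (ediam s)) (by rw [h1]; exact hU)
    simp only [hne, iSup_pos]
    rwa [h1] at h2

theorem hyp_of_null {h : ℝ≥0∞ → ℝ≥0∞} (hh : ∀ x, ContinuousWithinAt h (Ioi x) x)
    {A : Set E} (hA : Measure.mkMetric h A = 0) {r ε : ℝ≥0∞} (hr : 0 < r) (hrt : r ≠ ∞)
    (hε : 0 < ε) (V : Finset E) :
    ∃ G : Set E, IsOpen G ∧ A ⊆ G ∧ pr h r (⋃ v ∈ V, (fun y => v + y) '' G) ≤ ε := by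
  have hη : 0 < ε / ((V.card : ℝ≥0∞) + 1) := by
    refine ENNReal.div_pos hε.ne' ?_
    exact ENNReal.add_ne_top.2 ⟨ENNReal.natCast_ne_top _, ENNReal.one_ne_top⟩
  obtain ⟨U, hUo, hAU, hUd, hUs⟩ := null_cover (E := E) hh hA hr hrt hη
  refine ⟨⋃ n, U n, isOpen_iUnion hUo, hAU, ?_⟩
  calc pr h r (⋃ v ∈ V, (fun y => v + y) '' ⋃ n, U n)
      ≤ ∑ v ∈ V, pr h r ((fun y => v + y) '' ⋃ n, U n) := measure_biUnion_finset_le _ _
    _ ≤ ∑ v ∈ V, ε / ((V.card : ℝ≥0∞) + 1) := by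
        refine Finset.sum_le_sum fun v _ => ?_
        rw [image_iUnion]
        refine (measure_iUnion_le _).trans (le_trans ?_ hUs)
        exact ENNReal.tsum_le_tsum fun n => pr_translate_le (hUd n) v
    _ = (V.card : ℝ≥0∞) * (ε / ((V.card : ℝ≥0∞) + 1)) := by simp
    _ ≤ ((V.card : ℝ≥0∞) + 1) * (ε / ((V.card : ℝ≥0∞) + 1)) := by gcongr; exact le_self_add
    _ ≤ ε := ENNReal.mul_div_le

/-- Reduction of an arbitrary null universal set to a bounded one. -/
theorem bounded_null {f : T × S → E} (hf : Continuous f) {h : ℝ≥0∞ → ℝ≥0∞}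
    {A : Set E} (hA : IsUniv f A) (h0 : Measure.mkMetric h A = 0) :
    ∃ B : Set E, IsUniv f B ∧ Bornology.IsBounded B ∧ Measure.mkMetric h B = 0 := by
  obtain ⟨M, hM⟩ := (isCompact_range hf).isBounded.exists_norm_le
  refine ⟨(⋃ n, (fun y => TopologicalSpace.denseSeq E n + y) '' A) ∩ closedBall 0 (1 + M),
    ?_, isBounded_closedBall.subset inter_subset_right, ?_⟩
  · intro t
    obtain ⟨x, hx⟩ := hA t
    obtain ⟨n, hn⟩ : ∃ n, dist (-x) (TopologicalSpace.denseSeq E n) < 1 :=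
      (TopologicalSpace.denseRange_denseSeq E).exists_dist_lt (-x) one_pos
    refine ⟨TopologicalSpace.denseSeq E n + x, fun s => ⟨mem_iUnion.2 ⟨n, _, hx s, ?_⟩, ?_⟩⟩
    · simp only []; abel
    · rw [mem_closedBall, dist_zero_right]
      refine (norm_add_le _ _).trans (add_le_add ?_ (hM _ (mem_range_self _)))
      rw [dist_comm, dist_eq_norm, sub_neg_eq_add] at hn
      exact hn.le
  · refine measure_mono_null inter_subset_left ?_
    rw [measure_iUnion_null_iff]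
    intro n
    have hi : Isometry fun y : E => TopologicalSpace.denseSeq E n + y :=
      Isometry.of_dist_eq fun a b => by simp
    have hsurj : Function.Surjective fun y : E => TopologicalSpace.denseSeq E n + y :=
      (Equiv.addLeft _).surjective
    rw [← OuterMeasure.coe_mkMetric] at h0 ⊢
    rw [← OuterMeasure.isometry_comap_mkMetric h hi (Or.inr hsurj)] at h0
    exact h0

/-- **Zero-one law.** -/
theorem gauge_law {f : T × S → E} (hf : Continuous f) {h : ℝ≥0∞ → ℝ≥0∞}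
    (hh : ∀ x, ContinuousWithinAt h (Ioi x) x)
    {A : Set E} (hA : IsUniv f A) (h0 : Measure.mkMetric h A = 0) :
    ∀ᶠ K : USpace f in residual (USpace f), Measure.mkMetric h (K.1 : Set E) = 0 := by
  obtain ⟨B, hB, hBb, hB0⟩ := bounded_null hf hA h0
  have hpos : ∀ m : ℕ, 0 < ((m : ℝ≥0∞) + 1)⁻¹ := fun m =>
    ENNReal.inv_pos.2 (ENNReal.add_ne_top.2 ⟨ENNReal.natCast_ne_top _, ENNReal.one_ne_top⟩)
  have htop : ∀ m : ℕ, ((m : ℝ≥0∞) + 1)⁻¹ ≠ ∞ := fun m => ENNReal.inv_ne_top.2 (by simp)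
  have h1 : ∀ m : ℕ, ∀ᶠ K : USpace f in residual (USpace f),
      ∃ G : Set E, IsOpen G ∧ ((K.1 : NonemptyCompacts E) : Set E) ⊆ G ∧
        pr h ((m : ℝ≥0∞) + 1)⁻¹ G ≤ ((m : ℝ≥0∞) + 1)⁻¹ := fun m =>
    residual_good hf _ hB hBb fun V => hyp_of_null hh hB0 (hpos m) (htop m) (hpos m) V
  filter_upwards [eventually_countable_forall.2 h1] with K hK
  refine mk_eq_zero fun m => ?_
  obtain ⟨G, -, hG, hm⟩ := hK m
  exact (measure_mono hG).trans hm

end gauge

end Pool.Agent.Helper184.TM
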