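import Pool.Agent.Helper184.TM.LinesLaw

/-!
Kakeya sets: the typical = minimal principle for unit segments in a closed set of directions.
-/

open TopologicalSpace Metric Set Filter MeasureTheory
open scoped ENNReal NNReal Topology

namespace Pool.Agent.Helper184.TM

/-- The compact subsets of `ℝⁿ` containing a unit segment in every direction of `D`, with the
Hausdorff metric. For `D = sphere 0 1` these are the Kakeya sets. -/
abbrev KSpace {n : ℕ} (D : Set (EuclideanSpace ℝ (Fin n))) : Type :=
  {K : NonemptyCompacts (EuclideanSpace ℝ (Fin n)) // HasSegments D (K : Set (EuclideanSpace ℝ (Fin n)))}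

/-- The infimum of the Hausdorff dimensions of all (arbitrary) sets containing a unit segment in
every direction of `D`. -/
noncomputable def kappaH {n : ℕ} (D : Set (EuclideanSpace ℝ (Fin n))) : ℝ≥0∞ :=
  ⨅ (A : Set (EuclideanSpace ℝ (Fin n))) (_ : HasSegments D A), dimH A

/-- The infimum of the lower Minkowski dimensions of all bounded sets containing a unit segment
in every direction of `D`. -/
noncomputable def kappaM {n : ℕ} (D : Set (EuclideanSpace ℝ (Fin n))) : EReal :=
  ⨅ (A : Set (EuclideanSpace ℝ (Fin n))) (_ : HasSegments D A ∧ Bornology.IsBounded A),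
    lowerMinkowski A

theorem transfer {X : Type*} [TopologicalSpace X] {P Q : X → Prop} (h : ∀ x, P x ↔ Q x)
    {R : X → Prop} (hR : ∀ᶠ x : {x // P x} in residual {x // P x}, R x.1) :
    ∀ᶠ x : {x // Q x} in residual {x // Q x}, R x.1 := by
  obtain rfl : P = Q := funext fun x => propext (h x)
  exact hR

theorem transfer_complete {X : Type*} [UniformSpace X] {P Q : X → Prop} (h : ∀ x, P x ↔ Q x)
    (hR : CompleteSpace {x // P x}) : CompleteSpace {x // Q x} := by
  obtain rfl : P = Q := funext fun x => propext (h x)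
  exact hR

variable {n : ℕ} {D : Set (EuclideanSpace ℝ (Fin n))}

theorem complete_space : CompleteSpace (KSpace D) := by
  haveI : Nonempty (Icc (0 : ℝ) 1) := ⟨⟨0, by norm_num, by norm_num⟩⟩
  refine transfer_complete (P := fun K : NonemptyCompacts (EuclideanSpace ℝ (Fin n)) =>
    IsUniv (seg D) (K : Set (EuclideanSpace ℝ (Fin n)))) (fun K => (hasSegments_iff D _).symm) ?_
  exact (isClosed_univ (seg D)).completeSpace_coe

theorem nonempty_space (hsph : D ⊆ sphere 0 1) : Nonempty (KSpace D) := by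
  refine ⟨⟨⟨⟨closedBall 0 1, isCompact_closedBall 0 1⟩, ⟨0, by simp⟩⟩, fun v hv => ⟨0, fun t ht => ?_⟩⟩⟩
  have h1 : ‖v‖ = 1 := by simpa using hsph hv
  show (0 : EuclideanSpace ℝ (Fin n)) + t • v ∈ closedBall 0 1
  rw [zero_add, mem_closedBall, dist_zero_right, norm_smul, h1, mul_one, Real.norm_of_nonneg ht.1]
  exact ht.2

theorem compact_dir (hD : IsClosed D) (hsph : D ⊆ sphere 0 1) : CompactSpace D :=
  isCompact_iff_compactSpace.1
    ((isCompact_sphere (0 : EuclideanSpace ℝ (Fin n)) 1).of_isClosed_subset hD hsph)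

theorem gauge_part (hD : IsClosed D) (hne : D.Nonempty) (hsph : D ⊆ sphere 0 1)
    (h : ℝ≥0∞ → ℝ≥0∞) (hh : ∀ x, ContinuousWithinAt h (Ioi x) x)
    (hA : ∃ A : Set (EuclideanSpace ℝ (Fin n)), HasSegments D A ∧ Measure.mkMetric h A = 0) :
    ∀ᶠ K : KSpace D in residual (KSpace D),
      Measure.mkMetric h (K.1 : Set (EuclideanSpace ℝ (Fin n))) = 0 := by
  haveI := compact_dir hD hsph
  haveI : Nonempty D := hne.to_subtype
  haveI : Nonempty (Icc (0 : ℝ) 1) := ⟨⟨0, by norm_num, by norm_num⟩⟩
  obtain ⟨A, hA, h0⟩ := hA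
  exact transfer (fun K => (hasSegments_iff D _).symm)
    (R := fun K : NonemptyCompacts (EuclideanSpace ℝ (Fin n)) =>
      Measure.mkMetric h (K : Set (EuclideanSpace ℝ (Fin n))) = 0)
    (gauge_law (continuous_seg D) hh ((hasSegments_iff D A).1 hA) h0)

theorem dim_part (hD : IsClosed D) (hne : D.Nonempty) (hsph : D ⊆ sphere 0 1) :
    ∀ᶠ K : KSpace D in residual (KSpace D),
      dimH (K.1 : Set (EuclideanSpace ℝ (Fin n))) = kappaH D := by
  haveI := compact_dir hD hsph
  haveI : Nonempty D := hne.to_subtype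
  haveI : Nonempty (Icc (0 : ℝ) 1) := ⟨⟨0, by norm_num, by norm_num⟩⟩
  have h1 := transfer (fun K => (hasSegments_iff D _).symm)
    (R := fun K : NonemptyCompacts (EuclideanSpace ℝ (Fin n)) =>
      dimH (K : Set (EuclideanSpace ℝ (Fin n))) =
        ⨅ (A : Set (EuclideanSpace ℝ (Fin n))) (_ : IsUniv (seg D) A), dimH A)
    (dim_law (continuous_seg D))
  unfold kappaH
  simp only [hasSegments_iff] at h1 ⊢
  exact h1

theorem mink_part (hD : IsClosed D) (hne : D.Nonempty) (hsph : D ⊆ sphere 0 1) :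
    ∀ᶠ K : KSpace D in residual (KSpace D),
      lowerMinkowski (K.1 : Set (EuclideanSpace ℝ (Fin n))) = kappaM D := by
  haveI := compact_dir hD hsph
  haveI : Nonempty D := hne.to_subtype
  haveI : Nonempty (Icc (0 : ℝ) 1) := ⟨⟨0, by norm_num, by norm_num⟩⟩
  have h1 := transfer (fun K => (hasSegments_iff D _).symm)
    (R := fun K : NonemptyCompacts (EuclideanSpace ℝ (Fin n)) =>
      lowerMinkowski (K : Set (EuclideanSpace ℝ (Fin n))) =
        ⨅ (A : Set (EuclideanSpace ℝ (Fin n))) (_ : IsUniv (seg D) A ∧ Bornology.IsBounded A),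
          lowerMinkowski A)
    (mink_law (continuous_seg D))
  unfold kappaM
  simp only [hasSegments_iff] at h1 ⊢
  exact h1

theorem upper_part (hD : IsClosed D) (hne : D.Nonempty) (hsph : D ⊆ sphere 0 1) :
    ∀ᶠ K : KSpace D in residual (KSpace D),
      upperMinkowski (K.1 : Set (EuclideanSpace ℝ (Fin n))) = (n : EReal) := by
  haveI := compact_dir hD hsph
  haveI : Nonempty D := hne.to_subtype
  haveI : Nonempty (Icc (0 : ℝ) 1) := ⟨⟨0, by norm_num, by norm_num⟩⟩
  exact transfer (fun K => (hasSegments_iff D _).symm)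
    (R := fun K : NonemptyCompacts (EuclideanSpace ℝ (Fin n)) =>
      upperMinkowski (K : Set (EuclideanSpace ℝ (Fin n))) = (n : EReal))
    (upper_law (f := seg D))

theorem hasSegments_of_hasLines {A : Set (EuclideanSpace ℝ (Fin n))} (h : HasLines D A) :
    HasSegments D A := fun v hv => by
  obtain ⟨a, ha⟩ := h v hv
  exact ⟨a, fun t _ => ha t⟩

theorem dimH_le_n (A : Set (EuclideanSpace ℝ (Fin n))) : dimH A ≤ (n : ℝ≥0∞) := by
  refine (dimH_mono (subset_univ A)).trans ?_
  rw [Real.dimH_univ_eq_finrank]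
  simp

theorem lower_le_n {A : Set (EuclideanSpace ℝ (Fin n))} (hA : A.Nonempty)
    (hAb : Bornology.IsBounded A) : lowerMinkowski A ≤ (n : EReal) := by
  refine le_trans ?_ (upper_le hA hAb)
  unfold lowerMinkowski upperMinkowski
  exact EReal.sub_le_sub le_rfl (liminf_le_limsup)

theorem nonempty_of_hasSegments {A : Set (EuclideanSpace ℝ (Fin n))} (hne : D.Nonempty)
    (h : HasSegments D A) : A.Nonempty := by
  obtain ⟨v, hv⟩ := hne
  obtain ⟨x, hx⟩ := h v hv
  exact ⟨_, hx 0 ⟨le_rfl, zero_le_one⟩⟩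

theorem exists_member {p : KSpace D → Prop} (hsph : D ⊆ sphere 0 1)
    (h : ∀ᶠ K : KSpace D in residual (KSpace D), p K) : ∃ K, p K := by
  haveI := complete_space (D := D)
  haveI := nonempty_space hsph
  exact exists_of_residual h

theorem frequently_of_residual {p : KSpace D → Prop} (hsph : D ⊆ sphere 0 1)
    (h : ∀ᶠ K : KSpace D in residual (KSpace D), p K) : ∃ᶠ K in residual (KSpace D), p K := by
  intro hcon
  obtain ⟨K, h1, h2⟩ := exists_member hsph (h.and hcon)
  exact h2 h1

end Pool.Agent.Helper184.TM
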