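import Pool.Agent.Helper184.TM.Rel

/-!
Full lines: there is a closed set containing a full line in every direction of `D` whose
Hausdorff dimension is the minimal one for unit segments.
-/

open TopologicalSpace Metric Set Filter MeasureTheory
open scoped ENNReal NNReal Topology Pointwise

namespace Pool.Agent.Helper184.TM

section relgauge

variable {E : Type*} [NormedAddCommGroup E] [ProperSpace E] [MeasurableSpace E] [BorelSpace E]
variable {T S : Type*} [MetricSpace T] [CompactSpace T] [Nonempty T]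
  [TopologicalSpace S] [CompactSpace S] [Nonempty S]

theorem rel_gauge {f : T × S → E} (hf : Continuous f) {h : ℝ≥0∞ → ℝ≥0∞}
    (hh : ∀ x, ContinuousWithinAt h (Ioi x) x)
    {A : Set E} (hA : IsUniv f A) (h0 : Measure.mkMetric h A = 0) :
    ∀ᶠ C : RSpace E T in residual (RSpace E T),
      Measure.mkMetric h (Bd f (C.1 : Set (E × T))) = 0 := by
  obtain ⟨B, hB, hBb, hB0⟩ := bounded_null hf hA h0
  have hpos : ∀ m : ℕ, 0 < ((m : ℝ≥0∞) + 1)⁻¹ := fun m =>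
    ENNReal.inv_pos.2 (ENNReal.add_ne_top.2 ⟨ENNReal.natCast_ne_top _, ENNReal.one_ne_top⟩)
  have htop : ∀ m : ℕ, ((m : ℝ≥0∞) + 1)⁻¹ ≠ ∞ := fun m => ENNReal.inv_ne_top.2 (by simp)
  have h1 : ∀ m : ℕ, ∀ᶠ C : RSpace E T in residual (RSpace E T),
      ∃ G : Set E, IsOpen G ∧ Bd f (C.1 : Set (E × T)) ⊆ G ∧
        pr h ((m : ℝ≥0∞) + 1)⁻¹ G ≤ ((m : ℝ≥0∞) + 1)⁻¹ := fun m =>
    residual_good_rel hf _ hB hBb fun V => hyp_of_null hh hB0 (hpos m) (htop m) (hpos m) V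
  filter_upwards [eventually_countable_forall.2 h1] with C hC
  refine mk_eq_zero fun m => ?_
  obtain ⟨G, -, hG, hm⟩ := hC m
  exact (measure_mono hG).trans hm

end relgauge

section relmink

variable {n : ℕ}
variable {T S : Type*} [MetricSpace T] [CompactSpace T] [Nonempty T]
  [TopologicalSpace S] [CompactSpace S] [Nonempty S]

theorem rel_mink {f : T × S → EuclideanSpace ℝ (Fin n)} (hf : Continuous f)
    {A : Set (EuclideanSpace ℝ (Fin n))} (hA : IsUniv f A) (hAb : Bornology.IsBounded A)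
    {q' q : ℝ} (hq : q' < q)
    (h : ∃ᶠ δ in 𝓝[>] (0 : ℝ), volume (thickening δ A) ≤ ENNReal.ofReal (δ ^ ((n : ℝ) - q'))) :
    ∀ᶠ C : RSpace (EuclideanSpace ℝ (Fin n)) T in residual (RSpace (EuclideanSpace ℝ (Fin n)) T),
      ∃ᶠ δ in 𝓝[>] (0 : ℝ), volume (thickening δ (Bd f (C.1 : Set (EuclideanSpace ℝ (Fin n) × T)))) ≤
        ENNReal.ofReal (δ ^ ((n : ℝ) - q)) := by
  have h2 : ∀ m : ℕ, ∀ᶠ C : RSpace (EuclideanSpace ℝ (Fin n)) T in
      residual (RSpace (EuclideanSpace ℝ (Fin n)) T),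
      ∃ G : Set (EuclideanSpace ℝ (Fin n)), IsOpen G ∧
        Bd f (C.1 : Set (EuclideanSpace ℝ (Fin n) × T)) ⊆ G ∧ PM q m G :=
    fun m => residual_good_rel hf _ hA hAb fun V => hyp_mink hq h m V
  filter_upwards [eventually_countable_forall.2 h2] with C hC
  rw [frequently_iff]
  intro U hU
  obtain ⟨u, hu, hu'⟩ := mem_nhdsGT_iff_exists_Ioo_subset.1 hU
  obtain ⟨m, hm⟩ := exists_nat_one_div_lt (show (0 : ℝ) < u from hu)
  obtain ⟨G, -, hKG, δ, hδ0, hδm, hv⟩ := hC m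
  exact ⟨δ, hu' ⟨hδ0, hδm.trans hm⟩, (measure_mono (thickening_subset_of_subset _ hKG)).trans hv⟩

theorem thickening_smul_eq (A : Set (EuclideanSpace ℝ (Fin n))) {c : ℝ} (hc : 0 < c) (δ : ℝ) :
    thickening (c * δ) (c • A) = c • thickening δ A := by
  ext y
  simp only [mem_thickening_iff, mem_smul_set]
  constructor
  · rintro ⟨_, ⟨a, ha, rfl⟩, h⟩
    refine ⟨c⁻¹ • y, ⟨a, ha, ?_⟩, by rw [smul_smul, mul_inv_cancel₀ hc.ne', one_smul]⟩
    have h1 : dist y (c • a) = c * dist (c⁻¹ • y) a := by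
      conv_lhs => rw [show y = c • (c⁻¹ • y) by rw [smul_smul, mul_inv_cancel₀ hc.ne', one_smul]]
      rw [dist_smul₀, Real.norm_of_nonneg hc.le]
    rw [h1] at h
    exact lt_of_mul_lt_mul_left h hc.le
  · rintro ⟨z, ⟨a, ha, h⟩, rfl⟩
    refine ⟨c • a, ⟨a, ha, rfl⟩, ?_⟩
    rw [dist_smul₀, Real.norm_of_nonneg hc.le]
    exact mul_lt_mul_of_pos_left h hc

theorem freq_smul {A : Set (EuclideanSpace ℝ (Fin n))} {c : ℝ} (hc : 0 < c)
    {q' q : ℝ} (hq : q' < q)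
    (h : ∃ᶠ δ in 𝓝[>] (0 : ℝ), volume (thickening δ A) ≤ ENNReal.ofReal (δ ^ ((n : ℝ) - q'))) :
    ∃ᶠ δ in 𝓝[>] (0 : ℝ), volume (thickening δ (c • A)) ≤ ENNReal.ofReal (δ ^ ((n : ℝ) - q)) := by
  rw [frequently_iff]
  intro U hU
  obtain ⟨u, hu, hu'⟩ := mem_nhdsGT_iff_exists_Ioo_subset.1 hU
  have hu0 : (0 : ℝ) < u := hu
  have h1 : ∀ᶠ δ in 𝓝[>] (0 : ℝ), 0 < δ ∧ δ < u / c := by
    filter_upwards [Ioo_mem_nhdsGT (show (0 : ℝ) < u / c by positivity)] with δ hδ using hδ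
  have h2 : Tendsto (fun δ : ℝ => c ^ q * δ ^ (q - q')) (𝓝[>] 0) (𝓝 0) := by
    have h3 : Tendsto (fun δ : ℝ => δ ^ (q - q')) (𝓝[>] 0) (𝓝 0) := by
      have := (Real.continuousAt_rpow_const 0 (q - q') (Or.inr (by linarith))).tendsto
      rw [Real.zero_rpow (by linarith : q - q' ≠ 0)] at this
      exact this.mono_left nhdsWithin_le_nhds
    simpa using h3.const_mul (c ^ q)
  obtain ⟨δ, hv, ⟨hδ0, hδu⟩, hδ⟩ :=
    (h.and_eventually (h1.and (h2.eventually (gt_mem_nhds one_pos)))).exists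
  refine ⟨c * δ, hu' ⟨by positivity, ?_⟩, ?_⟩
  · rw [lt_div_iff₀ hc] at hδu; linarith
  · rw [thickening_smul_eq A hc, Measure.addHaar_smul, finrank_euclideanSpace, Fintype.card_fin,
      abs_of_nonneg (by positivity)]
    calc ENNReal.ofReal (c ^ n) * volume (thickening δ A)
        ≤ ENNReal.ofReal (c ^ n) * ENNReal.ofReal (δ ^ ((n : ℝ) - q')) := by gcongr
      _ = ENNReal.ofReal (c ^ n * δ ^ ((n : ℝ) - q')) := by
          rw [ENNReal.ofReal_mul (by positivity)]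
      _ ≤ ENNReal.ofReal ((c * δ) ^ ((n : ℝ) - q)) := by
          refine ENNReal.ofReal_le_ofReal ?_
          rw [Real.mul_rpow hc.le hδ0.le]
          have h5 : δ ^ ((n : ℝ) - q') = δ ^ ((n : ℝ) - q) * δ ^ (q - q') := by
            rw [← Real.rpow_add hδ0]; congr 1; ring
          have h6 : (c : ℝ) ^ n = c ^ ((n : ℝ) - q) * c ^ q := by
            rw [← Real.rpow_add hc, sub_add_cancel, Real.rpow_natCast]
          have h7 : 0 < δ ^ ((n : ℝ) - q) := Real.rpow_pos_of_pos hδ0 _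
          have h8 : 0 < c ^ ((n : ℝ) - q) := Real.rpow_pos_of_pos hc _
          rw [h5, h6]
          have h9 : c ^ ((n : ℝ) - q) * c ^ q * (δ ^ ((n : ℝ) - q) * δ ^ (q - q')) =
              (c ^ ((n : ℝ) - q) * δ ^ ((n : ℝ) - q)) * (c ^ q * δ ^ (q - q')) := by ring
          rw [h9]
          calc _ ≤ (c ^ ((n : ℝ) - q) * δ ^ ((n : ℝ) - q)) * 1 := by gcongr
            _ = _ := mul_one _

end relmink

end Pool.Agent.Helper184.TM
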