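import Pool.Agent.Helper184.TM.Lines

/-!
Full lines in every direction of `D`.
-/

open TopologicalSpace Metric Set Filter MeasureTheory
open scoped ENNReal NNReal Topology Pointwise

namespace Pool.Agent.Helper184.TM

variable {n : ℕ}

theorem exists_of_residual {X : Type*} [TopologicalSpace X] [BaireSpace X] [Nonempty X]
    {p : X → Prop} (h : ∀ᶠ x in residual X, p x) : ∃ x, p x :=
  (dense_of_mem_residual h).nonempty

theorem isCompact_Bd {E T S : Type*} [NormedAddCommGroup E] [MetricSpace T]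
    [TopologicalSpace S] [CompactSpace S] {f : T × S → E} (hf : Continuous f) {C : Set (E × T)}
    (hC : IsCompact C) : IsCompact (Bd f C) := by
  have h3 : Bd f C = (fun z : (E × T) × S => z.1.1 + f (z.1.2, z.2)) '' (C ×ˢ univ) := by
    ext y
    constructor
    · rintro ⟨p, hp, s, rfl⟩
      exact ⟨(p, s), ⟨hp, mem_univ _⟩, rfl⟩
    · rintro ⟨⟨p, s⟩, ⟨hp, -⟩, rfl⟩
      exact ⟨p, hp, s, rfl⟩
  have h4 : Continuous fun z : (E × T) × S => z.1.1 + f (z.1.2, z.2) := by fun_prop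
  rw [h3]
  exact (hC.prod isCompact_univ).image h4

/-- `A` contains a unit segment in every direction of `D`. -/
def HasSegments (D A : Set (EuclideanSpace ℝ (Fin n))) : Prop :=
  ∀ v ∈ D, ∃ a : EuclideanSpace ℝ (Fin n), ∀ t ∈ Icc (0 : ℝ) 1, a + t • v ∈ A

/-- `A` contains a full line in every direction of `D`. -/
def HasLines (D A : Set (EuclideanSpace ℝ (Fin n))) : Prop :=
  ∀ v ∈ D, ∃ a : EuclideanSpace ℝ (Fin n), ∀ t : ℝ, a + t • v ∈ A

/-- unit segments -/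
noncomputable def seg (D : Set (EuclideanSpace ℝ (Fin n))) :
    (D × Icc (0 : ℝ) 1) → EuclideanSpace ℝ (Fin n) := fun p => (p.2 : ℝ) • (p.1 : EuclideanSpace ℝ (Fin n))

/-- long segments -/
noncomputable def lseg (D : Set (EuclideanSpace ℝ (Fin n))) (R : ℕ) :
    (D × Icc (-1 : ℝ) 1) → EuclideanSpace ℝ (Fin n) :=
  fun p => (((R : ℝ) + 1) * (p.2 : ℝ)) • (p.1 : EuclideanSpace ℝ (Fin n))

theorem continuous_seg (D : Set (EuclideanSpace ℝ (Fin n))) : Continuous (seg D) := by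
  unfold seg; fun_prop

theorem continuous_lseg (D : Set (EuclideanSpace ℝ (Fin n))) (R : ℕ) : Continuous (lseg D R) := by
  unfold lseg; fun_prop

theorem hasSegments_iff (D A : Set (EuclideanSpace ℝ (Fin n))) :
    HasSegments D A ↔ IsUniv (seg D) A := by
  constructor
  · intro h t
    obtain ⟨a, ha⟩ := h t t.2
    exact ⟨a, fun s => ha s s.2⟩
  · intro h v hv
    obtain ⟨a, ha⟩ := h ⟨v, hv⟩
    exact ⟨a, fun t ht => ha ⟨t, ht⟩⟩

theorem lseg_univ {D A : Set (EuclideanSpace ℝ (Fin n))} (h : HasSegments D A) (R : ℕ) :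
    IsUniv (lseg D R) ((2 * ((R : ℝ) + 1)) • A) := by
  intro v
  obtain ⟨a, ha⟩ := h v v.2
  refine ⟨(2 * ((R : ℝ) + 1)) • a + ((R : ℝ) + 1) • (v : EuclideanSpace ℝ (Fin n)), fun s => ?_⟩
  have hs := s.2
  refine mem_smul_set.2 ⟨a + ((1 + (s : ℝ)) / 2) • (v : EuclideanSpace ℝ (Fin n)),
    ha _ ⟨by linarith [hs.1], by linarith [hs.2]⟩, ?_⟩
  simp only [lseg]
  rw [smul_add, smul_smul, add_assoc, ← add_smul]
  congr 2
  ring

theorem lines_law {D : Set (EuclideanSpace ℝ (Fin n))} (hD : IsClosed D) (hne : D.Nonempty)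
    (hsph : D ⊆ sphere 0 1) :
    ∃ (B : Set (EuclideanSpace ℝ (Fin n))) (ρ : ℝ), IsClosed B ∧
      (∀ v ∈ D, ∃ a : EuclideanSpace ℝ (Fin n), ‖a‖ ≤ ρ ∧ ∀ t : ℝ, a + t • v ∈ B) ∧
      dimH B ≤ (⨅ (A : Set (EuclideanSpace ℝ (Fin n))) (_ : HasSegments D A), dimH A) ∧
      ∀ r : ℝ, (B ∩ closedBall 0 r).Nonempty → lowerMinkowski (B ∩ closedBall 0 r) ≤
        ⨅ (A : Set (EuclideanSpace ℝ (Fin n))) (_ : HasSegments D A ∧ Bornology.IsBounded A),
          lowerMinkowski A := by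
  haveI : CompactSpace D := isCompact_iff_compactSpace.1
    ((isCompact_sphere (0 : EuclideanSpace ℝ (Fin n)) 1).of_isClosed_subset hD hsph)
  haveI : Nonempty D := hne.to_subtype
  haveI : Nonempty (Icc (-1 : ℝ) 1) := ⟨⟨0, by norm_num, by norm_num⟩⟩
  set κ : ℝ≥0∞ := ⨅ (A : Set (EuclideanSpace ℝ (Fin n))) (_ : HasSegments D A), dimH A with hκ
  set κ' : EReal := ⨅ (A : Set (EuclideanSpace ℝ (Fin n)))
    (_ : HasSegments D A ∧ Bornology.IsBounded A), lowerMinkowski A with hκ'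
  have h1 : ∀ p : ℕ × ℚ, ∀ᶠ C : RSpace (EuclideanSpace ℝ (Fin n)) D in
      residual (RSpace (EuclideanSpace ℝ (Fin n)) D),
      κ < (Real.toNNReal p.2 : ℝ≥0∞) →
        dimH (Bd (lseg D p.1) (C.1 : Set (EuclideanSpace ℝ (Fin n) × D))) ≤ (Real.toNNReal p.2 : ℝ≥0∞) := by
    rintro ⟨R, q⟩
    by_cases hq : κ < (Real.toNNReal q : ℝ≥0∞)
    · obtain ⟨A, hA, hAq⟩ : ∃ A : Set (EuclideanSpace ℝ (Fin n)), HasSegments D A ∧
          dimH A < (Real.toNNReal q : ℝ≥0∞) := by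
        rw [hκ] at hq
        simpa only [iInf_lt_iff, exists_prop] using hq
      have h0 : μH[((Real.toNNReal q : ℝ≥0) : ℝ)] A = 0 := hausdorffMeasure_of_dimH_lt hAq
      have h0' : Measure.mkMetric (fun r : ℝ≥0∞ => r ^ ((Real.toNNReal q : ℝ≥0) : ℝ))
          ((2 * ((R : ℝ) + 1)) • A) = 0 := by
        have h3 : μH[((Real.toNNReal q : ℝ≥0) : ℝ)] ((2 * ((R : ℝ) + 1)) • A) = 0 := by
          rw [Measure.hausdorffMeasure_smul₀ (NNReal.coe_nonneg _) (by positivity), h0, smul_zero]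
        exact h3
      have h2 := rel_gauge (continuous_lseg D R)
        (h := fun r : ℝ≥0∞ => r ^ ((Real.toNNReal q : ℝ≥0) : ℝ))
        (fun x => ENNReal.continuous_rpow_const.continuousWithinAt) (lseg_univ hA R) h0'
      filter_upwards [h2] with C hC _
      refine dimH_le_of_hausdorffMeasure_ne_top (d := Real.toNNReal q) ?_
      have : μH[((Real.toNNReal q : ℝ≥0) : ℝ)]
        (Bd (lseg D R) (C.1 : Set (EuclideanSpace ℝ (Fin n) × D))) = 0 := hC
      rw [this]; exact ENNReal.zero_ne_top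
    · exact Eventually.of_forall fun K h => absurd h hq
  have h2 : ∀ p : ℕ × ℚ, ∀ᶠ C : RSpace (EuclideanSpace ℝ (Fin n)) D in
      residual (RSpace (EuclideanSpace ℝ (Fin n)) D),
      κ' < ((p.2 : ℝ) : EReal) →
        ∃ᶠ δ in 𝓝[>] (0 : ℝ), volume (thickening δ
          (Bd (lseg D p.1) (C.1 : Set (EuclideanSpace ℝ (Fin n) × D)))) ≤
          ENNReal.ofReal (δ ^ ((n : ℝ) - (p.2 : ℝ))) := by
    rintro ⟨R, q⟩
    by_cases hq : κ' < ((q : ℝ) : EReal)
    · obtain ⟨A, ⟨hA, hAb⟩, hAq⟩ : ∃ A : Set (EuclideanSpace ℝ (Fin n)),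
          (HasSegments D A ∧ Bornology.IsBounded A) ∧ lowerMinkowski A < ((q : ℝ) : EReal) := by
        rw [hκ'] at hq
        simpa only [iInf_lt_iff, exists_prop] using hq
      have hAne : A.Nonempty := by
        obtain ⟨v, hv⟩ := hne
        obtain ⟨x, hx⟩ := hA v hv
        exact ⟨_, hx 0 ⟨le_rfl, zero_le_one⟩⟩
      obtain ⟨q₁, hq1, hq1'⟩ := EReal.lt_iff_exists_real_btwn.1 hAq
      have hq1'' : q₁ < (q : ℝ) := by exact_mod_cast hq1'
      obtain ⟨q₂, hq2, hq2'⟩ := exists_between hq1''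
      have hfr := frequently_of_lt hAne hAb hq1
      have hfr2 := freq_smul (c := 2 * ((R : ℝ) + 1)) (by positivity) hq2 hfr
      filter_upwards [rel_mink (continuous_lseg D R) (lseg_univ hA R)
        (hAb.smul₀ _) hq2' hfr2] with C hC _ using hC
    · exact Eventually.of_forall fun K h => absurd h hq
  obtain ⟨C, hC1, hC2⟩ := exists_of_residual ((eventually_countable_forall.2 h1).and
    (eventually_countable_forall.2 h2))
  set B : Set (EuclideanSpace ℝ (Fin n)) :=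
    ⋃ R : ℕ, Bd (lseg D R) (C.1 : Set (EuclideanSpace ℝ (Fin n) × D)) with hB
  obtain ⟨ρ, hρ⟩ : ∃ ρ : ℝ, ∀ p ∈ (C.1 : Set (EuclideanSpace ℝ (Fin n) × D)), ‖p.1‖ ≤ ρ := by
    obtain ⟨ρ, hρ⟩ := (C.1.isCompact.image continuous_fst).isBounded.exists_norm_le
    exact ⟨ρ, fun p hp => hρ _ (mem_image_of_mem _ hp)⟩
  have hnv : ∀ v : D, ‖(v : EuclideanSpace ℝ (Fin n))‖ = 1 := fun v => by
    simpa using hsph v.2
  -- bounded parts
  have hpart : ∀ (r : ℝ) (R : ℕ), r + ρ ≤ (R : ℝ) + 1 → B ∩ closedBall 0 r ⊆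
      Bd (lseg D R) (C.1 : Set (EuclideanSpace ℝ (Fin n) × D)) := by
    rintro r R hR y ⟨hy, hyr⟩
    obtain ⟨R', hR'⟩ := mem_iUnion.1 hy
    obtain ⟨p, hp, s, rfl⟩ := hR'
    have h3 : ‖lseg D R' (p.2, s)‖ = |((R' : ℝ) + 1) * (s : ℝ)| := by
      simp [lseg, norm_smul, hnv]
    have h4 : ‖lseg D R' (p.2, s)‖ ≤ (R : ℝ) + 1 := by
      have h5 : lseg D R' (p.2, s) = (p.1 + lseg D R' (p.2, s)) - p.1 := by abel
      rw [h5]
      refine (norm_sub_le _ _).trans (le_trans (add_le_add ?_ (hρ p hp)) hR)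
      simpa using hyr
    rw [h3] at h4
    have hRpos : (0 : ℝ) < (R : ℝ) + 1 := by positivity
    refine ⟨p, hp, ⟨((R' : ℝ) + 1) * (s : ℝ) / ((R : ℝ) + 1), ?_⟩, ?_⟩
    · rw [mem_Icc, ← abs_le, abs_div, abs_of_pos hRpos, div_le_one hRpos]
      exact h4
    · simp only [lseg]
      congr 2
      field_simp
  have hBdc : ∀ R : ℕ, IsCompact (Bd (lseg D R) (C.1 : Set (EuclideanSpace ℝ (Fin n) × D))) :=
    fun R => isCompact_Bd (continuous_lseg D R) C.1.isCompact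
  refine ⟨B, ρ, ?_, ?_, ?_, ?_⟩
  · -- closed
    apply IsSeqClosed.isClosed
    intro u y hu hlim
    obtain ⟨r, hr⟩ := (isBounded_range_of_tendsto u hlim).exists_norm_le
    obtain ⟨R, hR⟩ := exists_nat_ge (r + ρ)
    have h3 : ∀ k, u k ∈ Bd (lseg D R) (C.1 : Set (EuclideanSpace ℝ (Fin n) × D)) := fun k =>
      hpart r R (by linarith) ⟨hu k, by simpa using hr _ (mem_range_self k)⟩
    exact mem_iUnion.2 ⟨R, (hBdc R).isClosed.mem_of_tendsto hlim (Eventually.of_forall h3)⟩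
  · intro v hv
    obtain ⟨x, hx⟩ := C.2 ⟨v, hv⟩
    have hx' : (x, (⟨v, hv⟩ : D)) ∈ (C.1 : Set (EuclideanSpace ℝ (Fin n) × D)) := hx
    have hxρ : ‖x‖ ≤ ρ := hρ (x, (⟨v, hv⟩ : D)) hx'
    refine ⟨x, hxρ, fun t => ?_⟩
    obtain ⟨R, hR⟩ := exists_nat_ge |t|
    have hRpos : (0 : ℝ) < (R : ℝ) + 1 := by positivity
    have hst : t / ((R : ℝ) + 1) ∈ Icc (-1 : ℝ) 1 := by
      rw [mem_Icc, ← abs_le, abs_div, abs_of_pos hRpos, div_le_one hRpos]
      linarith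
    have heq : x + t • v = (x, (⟨v, hv⟩ : D)).1 +
        lseg D R ((x, (⟨v, hv⟩ : D)).2, (⟨t / ((R : ℝ) + 1), hst⟩ : Icc (-1 : ℝ) 1)) := by
      simp only [lseg]
      congr 2
      field_simp
    exact mem_iUnion.2 ⟨R, (x, (⟨v, hv⟩ : D)), hx', ⟨t / ((R : ℝ) + 1), hst⟩, heq⟩
  · rw [hB, dimH_iUnion]
    refine iSup_le fun R => ?_
    by_contra hcon
    rw [not_le] at hcon
    obtain ⟨q, -, hq1, hq2⟩ := ENNReal.lt_iff_exists_rat_btwn.1 hcon
    exact absurd (hC1 (R, q) hq1) (not_le.2 hq2)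
  · intro r hr
    obtain ⟨R, hR⟩ := exists_nat_ge (r + ρ)
    by_contra hcon
    rw [not_le] at hcon
    obtain ⟨q, hq1, hq2⟩ := EReal.lt_iff_exists_rat_btwn.1 hcon
    refine absurd ?_ (not_le.2 hq2)
    refine lowerMinkowski_le hr (isBounded_closedBall.subset inter_subset_right) ?_
    refine (hC2 (R, q) hq1).mono fun δ hδ => ?_
    exact (measure_mono (thickening_subset_of_subset _ (hpart r R (by linarith)))).trans hδ

end Pool.Agent.Helper184.TM
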