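import Pool.Agent.Helper184.TM.Dim

/-!
Typical = minimal for lower Minkowski dimension; typical = maximal for upper Minkowski dimension.
-/

open TopologicalSpace Metric Set Filter MeasureTheory
open scoped ENNReal NNReal Topology

namespace Pool.Agent.Helper184.TM

variable {n : ℕ}
variable {T S : Type*} [TopologicalSpace T] [CompactSpace T] [Nonempty T]
  [TopologicalSpace S] [CompactSpace S] [Nonempty S]

theorem thickening_translate (A : Set (EuclideanSpace ℝ (Fin n))) (v : EuclideanSpace ℝ (Fin n))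
    (δ : ℝ) : thickening δ ((fun y => v + y) '' A) = (fun y => v + y) '' thickening δ A := by
  ext y
  simp only [mem_thickening_iff, mem_image]
  constructor
  · rintro ⟨_, ⟨a, ha, rfl⟩, h⟩
    refine ⟨y - v, ⟨a, ha, ?_⟩, by abel⟩
    have h1 : dist (y - v) a = dist y (v + a) := by
      rw [dist_eq_norm, dist_eq_norm]; congr 1; abel
    rwa [h1]
  · rintro ⟨z, ⟨a, ha, h⟩, rfl⟩
    exact ⟨v + a, ⟨a, ha, rfl⟩, by simpa using h⟩

theorem vol_union_le (A : Set (EuclideanSpace ℝ (Fin n))) (V : Finset (EuclideanSpace ℝ (Fin n)))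
    (δ : ℝ) : volume (thickening δ (⋃ v ∈ V, (fun y => v + y) '' A)) ≤
      (V.card : ℝ≥0∞) * volume (thickening δ A) := by
  have h1 : thickening δ (⋃ v ∈ V, (fun y => v + y) '' A) =
      ⋃ v ∈ V, (fun y => v + y) '' thickening δ A := by
    simp only [thickening_iUnion, thickening_translate]
  rw [h1]
  calc volume (⋃ v ∈ V, (fun y => v + y) '' thickening δ A)
      ≤ ∑ v ∈ V, volume ((fun y => v + y) '' thickening δ A) := measure_biUnion_finset_le _ _
    _ = ∑ v ∈ V, volume (thickening δ A) := by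
        refine Finset.sum_congr rfl fun v _ => ?_
        rw [image_add_left, measure_preimage_add]
    _ = (V.card : ℝ≥0∞) * volume (thickening δ A) := by simp

/-- the smallness property for the Minkowski dimension -/
def PM (q : ℝ) (m : ℕ) (G : Set (EuclideanSpace ℝ (Fin n))) : Prop :=
  ∃ δ : ℝ, 0 < δ ∧ δ < 1 / ((m : ℝ) + 1) ∧
    volume (thickening δ G) ≤ ENNReal.ofReal (δ ^ ((n : ℝ) - q))

theorem hyp_mink {A : Set (EuclideanSpace ℝ (Fin n))} {q' q : ℝ} (hq : q' < q)
    (h : ∃ᶠ δ in 𝓝[>] (0 : ℝ), volume (thickening δ A) ≤ ENNReal.ofReal (δ ^ ((n : ℝ) - q')))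
    (m : ℕ) (V : Finset (EuclideanSpace ℝ (Fin n))) :
    ∃ G : Set (EuclideanSpace ℝ (Fin n)), IsOpen G ∧ A ⊆ G ∧
      PM q m (⋃ v ∈ V, (fun y => v + y) '' G) := by
  have h1 : ∀ᶠ δ in 𝓝[>] (0 : ℝ), 0 < δ ∧ δ < 1 / ((m : ℝ) + 1) := by
    filter_upwards [Ioo_mem_nhdsGT (show (0 : ℝ) < 1 / ((m : ℝ) + 1) by positivity)] with δ hδ using hδ
  have h2 : Tendsto (fun δ : ℝ => (V.card : ℝ) * 2 ^ ((n : ℝ) - q) * δ ^ (q - q')) (𝓝[>] 0) (𝓝 0) := by
    have h3 : Tendsto (fun δ : ℝ => δ ^ (q - q')) (𝓝[>] 0) (𝓝 0) := by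
      have := (Real.continuousAt_rpow_const 0 (q - q') (Or.inr (by linarith))).tendsto
      rw [Real.zero_rpow (by linarith : q - q' ≠ 0)] at this
      exact this.mono_left nhdsWithin_le_nhds
    simpa using h3.const_mul ((V.card : ℝ) * 2 ^ ((n : ℝ) - q))
  obtain ⟨δ, hv, ⟨hδ0, hδm⟩, hδ⟩ :=
    (h.and_eventually (h1.and (h2.eventually (gt_mem_nhds one_pos)))).exists
  have hd2 : 0 < δ / 2 := by positivity
  refine ⟨thickening (δ / 2) A, isOpen_thickening, self_subset_thickening hd2 _, δ / 2, hd2,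
    by linarith, ?_⟩
  refine (vol_union_le _ V _).trans ?_
  have h4 : thickening (δ / 2) (thickening (δ / 2) A) ⊆ thickening δ A := by
    refine (thickening_thickening_subset _ _ _).trans ?_
    rw [add_halves]
  calc (V.card : ℝ≥0∞) * volume (thickening (δ / 2) (thickening (δ / 2) A))
      ≤ (V.card : ℝ≥0∞) * ENNReal.ofReal (δ ^ ((n : ℝ) - q')) := by
        gcongr
        exact (measure_mono h4).trans hv
    _ = ENNReal.ofReal ((V.card : ℝ) * δ ^ ((n : ℝ) - q')) := by
        rw [ENNReal.ofReal_mul (by positivity)]; simp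
    _ ≤ ENNReal.ofReal ((δ / 2) ^ ((n : ℝ) - q)) := by
        refine ENNReal.ofReal_le_ofReal ?_
        rw [Real.div_rpow hδ0.le (by norm_num)]
        have h5 : δ ^ ((n : ℝ) - q') = δ ^ ((n : ℝ) - q) * δ ^ (q - q') := by
          rw [← Real.rpow_add hδ0]; congr 1; ring
        rw [h5, le_div_iff₀ (by positivity)]
        have h6 : 0 < δ ^ ((n : ℝ) - q) := Real.rpow_pos_of_pos hδ0 _
        nlinarith [hδ.le, h6]

theorem mink_law {f : T × S → EuclideanSpace ℝ (Fin n)} (hf : Continuous f) :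
    ∀ᶠ K : USpace f in residual (USpace f), lowerMinkowski (K.1 : Set (EuclideanSpace ℝ (Fin n))) =
      ⨅ (A : Set (EuclideanSpace ℝ (Fin n))) (_ : IsUniv f A ∧ Bornology.IsBounded A),
        lowerMinkowski A := by
  obtain ⟨t0⟩ := (inferInstance : Nonempty T)
  obtain ⟨s0⟩ := (inferInstance : Nonempty S)
  set κ : EReal := ⨅ (A : Set (EuclideanSpace ℝ (Fin n)))
    (_ : IsUniv f A ∧ Bornology.IsBounded A), lowerMinkowski A with hκ
  have h1 : ∀ q : ℚ, ∀ᶠ K : USpace f in residual (USpace f),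
      κ < ((q : ℝ) : EReal) → lowerMinkowski (K.1 : Set (EuclideanSpace ℝ (Fin n))) ≤ ((q : ℝ) : EReal) := by
    intro q
    by_cases hq : κ < ((q : ℝ) : EReal)
    · obtain ⟨A, ⟨hA, hAb⟩, hAq⟩ : ∃ A : Set (EuclideanSpace ℝ (Fin n)),
          (IsUniv f A ∧ Bornology.IsBounded A) ∧ lowerMinkowski A < ((q : ℝ) : EReal) := by
        rw [hκ] at hq
        simpa only [iInf_lt_iff, exists_prop] using hq
      have hAne : A.Nonempty := by
        obtain ⟨x, hx⟩ := hA t0
        exact ⟨_, hx s0⟩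
      obtain ⟨q', hq'1, hq'2⟩ := EReal.lt_iff_exists_real_btwn.1 hAq
      have hq'q : q' < (q : ℝ) := by exact_mod_cast hq'2
      have hfr := frequently_of_lt hAne hAb hq'1
      have h2 : ∀ m : ℕ, ∀ᶠ K : USpace f in residual (USpace f),
          ∃ G : Set (EuclideanSpace ℝ (Fin n)), IsOpen G ∧ (K.1 : Set (EuclideanSpace ℝ (Fin n))) ⊆ G ∧ PM (q : ℝ) m G :=
        fun m => residual_good hf _ hA hAb fun V => hyp_mink hq'q hfr m V
      filter_upwards [eventually_countable_forall.2 h2] with K hK _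
      refine lowerMinkowski_le K.1.nonempty K.1.isCompact.isBounded ?_
      rw [frequently_iff]
      intro U hU
      obtain ⟨u, hu, hu'⟩ := mem_nhdsGT_iff_exists_Ioo_subset.1 hU
      obtain ⟨m, hm⟩ := exists_nat_one_div_lt (show (0 : ℝ) < u from hu)
      obtain ⟨G, -, hKG, δ, hδ0, hδm, hv⟩ := hK m
      refine ⟨δ, hu' ⟨hδ0, hδm.trans hm⟩, (measure_mono (thickening_subset_of_subset _ hKG)).trans hv⟩
    · exact Eventually.of_forall fun K h => absurd h hq
  filter_upwards [eventually_countable_forall.2 h1] with K hK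
  refine le_antisymm ?_ (iInf₂_le _ ⟨K.2, K.1.isCompact.isBounded⟩)
  by_contra hcon
  rw [not_le] at hcon
  obtain ⟨q, hq1, hq2⟩ := EReal.lt_iff_exists_rat_btwn.1 hcon
  exact absurd (hK q hq1) (not_le.2 hq2)

/-- Upper Minkowski dimension, `n - liminf_{δ → 0+} log |N_δ A| / log δ`. -/
noncomputable def upperMinkowski (A : Set (EuclideanSpace ℝ (Fin n))) : EReal :=
  (n : EReal) - liminf (fun δ : ℝ =>
    ((Real.log (volume (thickening δ A)).toReal / Real.log δ : ℝ) : EReal)) (𝓝[>] (0 : ℝ))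

theorem upper_le {A : Set (EuclideanSpace ℝ (Fin n))} (hA : A.Nonempty)
    (hAb : Bornology.IsBounded A) : upperMinkowski A ≤ (n : EReal) := by
  have h0 : (0 : EReal) ≤ liminf (fun δ : ℝ =>
      ((Real.log (volume (thickening δ A)).toReal / Real.log δ : ℝ) : EReal)) (𝓝[>] (0 : ℝ)) := by
    set c : ℝ := Real.log ((volume (thickening 1 A)).toReal) with hc
    have h1 : Tendsto (fun δ : ℝ => ((c / Real.log δ : ℝ) : EReal)) (𝓝[>] 0) (𝓝 ((0 : ℝ) : EReal)) := by
      refine (continuous_coe_real_ereal.tendsto _).comp ?_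
      exact Real.tendsto_log_nhdsGT_zero.const_div_atBot c
    rw [← EReal.coe_zero, ← h1.liminf_eq]
    refine liminf_le_liminf ?_
    filter_upwards [Ioo_mem_nhdsGT (zero_lt_one' ℝ)] with δ hδ
    rw [EReal.coe_le_coe_iff]
    have hlog : Real.log δ < 0 := Real.log_neg hδ.1 hδ.2
    refine div_le_div_of_nonpos_of_le hlog.le ?_
    refine Real.log_le_log (vol_pos hA hAb hδ.1).1 ?_
    exact ENNReal.toReal_mono (vol_pos hA hAb one_pos).2
      (measure_mono (thickening_mono hδ.2.le _))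
  unfold upperMinkowski
  calc (n : EReal) - _ ≤ (n : EReal) - 0 := EReal.sub_le_sub le_rfl h0
    _ = n := by simp

theorem upper_law {f : T × S → EuclideanSpace ℝ (Fin n)} :
    ∀ᶠ K : USpace f in residual (USpace f),
      upperMinkowski (K.1 : Set (EuclideanSpace ℝ (Fin n))) = (n : EReal) := by
  classical
  have h1 : ∀ m : ℕ, ∀ᶠ K : USpace f in residual (USpace f),
      ∃ δ : ℝ, 0 < δ ∧ δ < 1 / ((m : ℝ) + 1) ∧
        δ ^ (1 / ((m : ℝ) + 1)) < (volume (thickening δ (K.1 : Set (EuclideanSpace ℝ (Fin n))))).toReal := by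
    intro m
    refine mem_of_superset (residual_of_dense_open (s := interior {K : USpace f |
      ∃ δ : ℝ, 0 < δ ∧ δ < 1 / ((m : ℝ) + 1) ∧ δ ^ (1 / ((m : ℝ) + 1)) <
        (volume (thickening δ (K.1 : Set (EuclideanSpace ℝ (Fin n))))).toReal})
      isOpen_interior ?_) interior_subset
    rw [Metric.dense_iff]
    intro K r hr
    obtain ⟨x0, hx0⟩ := K.1.nonempty
    have hr2 : 0 < r / 2 := half_pos hr
    set c : ℝ := (volume (ball x0 (r / 2))).toReal with hc
    have hc0 : 0 < c := ENNReal.toReal_pos (measure_ball_pos volume x0 hr2).ne'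
      measure_ball_lt_top.ne
    obtain ⟨δ, hδ0, hδm, hδc⟩ : ∃ δ : ℝ, 0 < δ ∧ 2 * δ < 1 / ((m : ℝ) + 1) ∧
        (2 * δ) ^ (1 / ((m : ℝ) + 1)) < c := by
      have h3 : Tendsto (fun δ : ℝ => δ ^ (1 / ((m : ℝ) + 1))) (𝓝[>] 0) (𝓝 0) := by
        have := (Real.continuousAt_rpow_const 0 (1 / ((m : ℝ) + 1)) (Or.inr (by positivity))).tendsto
        rw [Real.zero_rpow (by positivity)] at this
        exact this.mono_left nhdsWithin_le_nhds
      have h4 := h3.eventually (gt_mem_nhds hc0)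
      have h5 : ∀ᶠ δ in 𝓝[>] (0 : ℝ), 0 < δ ∧ δ < 1 / ((m : ℝ) + 1) := by
        filter_upwards [Ioo_mem_nhdsGT (show (0 : ℝ) < 1 / ((m : ℝ) + 1) by positivity)] with δ hδ
          using hδ
      obtain ⟨δ, hδc, hδ0, hδm⟩ := (h4.and h5).exists
      exact ⟨δ / 2, by positivity, by rwa [mul_div_cancel₀ _ (two_ne_zero)],
        by rwa [mul_div_cancel₀ _ (two_ne_zero)]⟩
    obtain ⟨D0, hD0K, hD0f, hD0⟩ := (isCompact_closedBall x0 (r / 2)).finite_cover_balls hδ0
    set K1 : Set (EuclideanSpace ℝ (Fin n)) := (K.1 : Set _) ∪ D0 with hK1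
    have hK1c : IsCompact K1 := K.1.isCompact.union hD0f.isCompact
    have hK1n : K1.Nonempty := ⟨x0, Or.inl hx0⟩
    have hK1u : IsUniv f K1 := K.2.mono subset_union_left
    set K' : USpace f := ⟨⟨⟨K1, hK1c⟩, hK1n⟩, hK1u⟩ with hK'
    refine ⟨K', ?_, ?_⟩
    · rw [mem_ball, Subtype.dist_eq, NonemptyCompacts.dist_eq]
      refine lt_of_le_of_lt ?_ (half_lt_self hr)
      refine hausdorffDist_le_of_mem_dist hr2.le ?_ ?_
      · rintro y (hy | hy)
        · exact ⟨y, hy, by simpa using hr2.le⟩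
        · exact ⟨x0, hx0, hD0K hy⟩
      · intro y hy
        exact ⟨y, Or.inl hy, by simpa using hr2.le⟩
    · rw [mem_interior_iff_mem_nhds, Metric.mem_nhds_iff]
      refine ⟨δ, hδ0, fun K'' hK'' => ⟨2 * δ, by positivity, hδm, hδc.trans_le ?_⟩⟩
      have hsub : ball x0 (r / 2) ⊆
          thickening (2 * δ) (K''.1 : Set (EuclideanSpace ℝ (Fin n))) := by
        intro y hy
        have := hD0 (ball_subset_closedBall hy)
        simp only [mem_iUnion, mem_ball] at this
        obtain ⟨z, hz, hyz⟩ := this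
        have hz1 : z ∈ (K'.1 : Set (EuclideanSpace ℝ (Fin n))) := Or.inr hz
        rw [mem_ball, Subtype.dist_eq, dist_comm, NonemptyCompacts.dist_eq] at hK''
        obtain ⟨w, hw, hzw⟩ := exists_dist_lt_of_hausdorffDist_lt hz1 hK'' (hfin _ _)
        refine mem_thickening_iff.2 ⟨w, hw, ?_⟩
        linarith [dist_triangle y z w]
      exact ENNReal.toReal_mono (vol_pos K''.1.nonempty K''.1.isCompact.isBounded (by positivity)).2
        (measure_mono hsub)
  filter_upwards [eventually_countable_forall.2 h1] with K hK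
  have hA := K.1.nonempty
  have hAb := K.1.isCompact.isBounded
  refine le_antisymm (upper_le hA hAb) ?_
  have h0 : liminf (fun δ : ℝ => ((Real.log (volume (thickening δ
      (K.1 : Set (EuclideanSpace ℝ (Fin n))))).toReal / Real.log δ : ℝ) : EReal)) (𝓝[>] (0 : ℝ)) ≤ 0 := by
    by_contra hcon
    rw [not_le] at hcon
    obtain ⟨e, he0, he⟩ := EReal.lt_iff_exists_real_btwn.1 hcon
    have he0' : (0 : ℝ) < e := by exact_mod_cast he0
    have h2 := eventually_lt_of_lt_liminf he (by isBoundedDefault)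
    obtain ⟨u, hu, hu'⟩ := mem_nhdsGT_iff_exists_Ioo_subset.1 h2
    obtain ⟨m, hm⟩ := exists_nat_one_div_lt (show (0 : ℝ) < min (min u e) 1 by
      have : (0 : ℝ) < u := hu
      positivity)
    obtain ⟨δ, hδ0, hδm, hv⟩ := hK m
    have hδu : δ < u := hδm.trans (hm.trans_le ((min_le_left _ _).trans (min_le_left _ _)))
    have hme : 1 / ((m : ℝ) + 1) < e := hm.trans_le ((min_le_left _ _).trans (min_le_right _ _))
    have hδ1 : δ < 1 := hδm.trans (hm.trans_le (min_le_right _ _))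
    have h3 := hu' ⟨hδ0, hδu⟩
    simp only [mem_setOf_eq, EReal.coe_lt_coe_iff] at h3
    have hlog : Real.log δ < 0 := Real.log_neg hδ0 hδ1
    rw [lt_div_iff_of_neg hlog] at h3
    have h4 : (1 / ((m : ℝ) + 1)) * Real.log δ < Real.log (volume (thickening δ
        (K.1 : Set (EuclideanSpace ℝ (Fin n))))).toReal := by
      rw [← Real.log_rpow hδ0]
      exact Real.log_lt_log (Real.rpow_pos_of_pos hδ0 _) hv
    have h5 : e * Real.log δ < (1 / ((m : ℝ) + 1)) * Real.log δ :=
      mul_lt_mul_of_neg_right hme hlog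
    linarith
  unfold upperMinkowski
  calc (n : EReal) = (n : EReal) - 0 := by simp
    _ ≤ _ := EReal.sub_le_sub le_rfl h0

end Pool.Agent.Helper184.TM
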