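import Pool.Agent.Helper184.TM.Mink

/-!
The relation space: compact subsets of `E × T` projecting onto `T`.  Typical relations give
small unions of long segments, hence small closed sets containing full lines.
-/

open TopologicalSpace Metric Set Filter MeasureTheory
open scoped ENNReal NNReal Topology

namespace Pool.Agent.Helper184.TM

section general

variable {X : Type*} [MetricSpace X]

theorem isOpen_subset_open' {G : Set X} (hG : IsOpen G) :
    IsOpen {K : NonemptyCompacts X | (K : Set X) ⊆ G} := by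
  rw [Metric.isOpen_iff]
  intro K hK
  obtain ⟨δ, hδ, h⟩ := K.isCompact.exists_thickening_subset_open hG hK
  refine ⟨δ, hδ, fun K' hK' y hy => h ?_⟩
  rw [mem_ball, NonemptyCompacts.dist_eq] at hK'
  have hfin : hausdorffEDist (K' : Set X) (K : Set X) ≠ ⊤ :=
    hausdorffEDist_ne_top_of_nonempty_of_bounded K'.nonempty K.nonempty
      K'.isCompact.isBounded K.isCompact.isBounded
  obtain ⟨z, hz, hyz⟩ := exists_dist_lt_of_hausdorffDist_lt hy hK' hfin
  exact mem_thickening_iff.2 ⟨z, hz, hyz⟩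

end general

variable {E : Type*} [NormedAddCommGroup E] [ProperSpace E]
variable {T S : Type*} [MetricSpace T] [CompactSpace T] [Nonempty T]
  [TopologicalSpace S] [CompactSpace S] [Nonempty S]

/-- compact relations with full domain. -/
abbrev RSpace (E T : Type*) [NormedAddCommGroup E] [MetricSpace T] : Type _ :=
  {C : NonemptyCompacts (E × T) // ∀ t : T, ∃ x : E, (x, t) ∈ C}

/-- the union of the placed sets. -/
def Bd (f : T × S → E) (C : Set (E × T)) : Set E :=
  {y | ∃ p ∈ C, ∃ s : S, y = p.1 + f (p.2, s)}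

theorem isClosed_rel : IsClosed {C : NonemptyCompacts (E × T) | ∀ t : T, ∃ x : E, (x, t) ∈ C} := by
  apply IsSeqClosed.isClosed
  intro u C hu hlim t
  choose x hx using fun n => hu n t
  have hdist : Tendsto (fun n => dist (u n) C) atTop (𝓝 0) := tendsto_iff_dist_tendsto_zero.1 hlim
  have hfin : ∀ n, hausdorffEDist (u n : Set (E × T)) (C : Set (E × T)) ≠ ⊤ := fun n =>
    hausdorffEDist_ne_top_of_nonempty_of_bounded (u n).nonempty C.nonempty
      (u n).isCompact.isBounded C.isCompact.isBounded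
  have h1 : ∀ n, ∃ z ∈ (C : Set (E × T)), dist (x n, t) z < dist (u n) C + 1 / ((n : ℝ) + 1) := by
    intro n
    have h2 : hausdorffDist (u n : Set (E × T)) (C : Set (E × T)) < dist (u n) C + 1 / ((n : ℝ) + 1) := by
      rw [NonemptyCompacts.dist_eq]
      have : (0 : ℝ) < 1 / ((n : ℝ) + 1) := by positivity
      linarith
    exact exists_dist_lt_of_hausdorffDist_lt (hx n) h2 (hfin n)
  choose z hzC hz using h1
  obtain ⟨w, hw, φ, hφ, hφw⟩ := C.isCompact.isSeqCompact hzC
  have hz0 : Tendsto (fun n => dist (x n, t) (z n)) atTop (𝓝 0) := by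
    refine squeeze_zero (fun _ => dist_nonneg) (fun n => (hz n).le) ?_
    simpa using hdist.add tendsto_one_div_add_atTop_nhds_zero_nat
  have h3 : Tendsto (fun n => (z (φ n)).2) atTop (𝓝 w.2) := (continuous_snd.tendsto _).comp hφw
  have h4 : Tendsto (fun n => dist t (z (φ n)).2) atTop (𝓝 0) := by
    refine squeeze_zero (fun _ => dist_nonneg) (fun n => ?_) (hz0.comp hφ.tendsto_atTop)
    exact (le_max_right _ _).trans (by rw [Function.comp_apply, Prod.dist_eq])
  have h5 : w.2 = t := by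
    have h6 := (tendsto_const_nhds (x := t)).dist h3
    have := tendsto_nhds_unique h6 h4
    exact (dist_eq_zero.1 this).symm
  exact ⟨w.1, by rw [← h5]; exact hw⟩

instance : CompleteSpace (RSpace E T) := by
  haveI := isClosed_rel (E := E) (T := T)
  exact this.completeSpace_coe

instance : Nonempty (RSpace E T) := by
  refine ⟨⟨⟨⟨({0} : Set E) ×ˢ univ, isCompact_singleton.prod isCompact_univ⟩, ?_⟩, ?_⟩⟩
  · obtain ⟨t⟩ := (inferInstance : Nonempty T)
    exact ⟨(0, t), by simp⟩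
  · intro t
    exact ⟨0, by
      show (0, t) ∈ (({0} : Set E) ×ˢ univ : Set (E × T))
      simp⟩

theorem exists_good_rel {f : T × S → E} (hf : Continuous f) (P : Set E → Prop) {A : Set E}
    (hA : IsUniv f A) (hAb : Bornology.IsBounded A)
    (hP : ∀ V : Finset E, ∃ G : Set E, IsOpen G ∧ A ⊆ G ∧ P (⋃ v ∈ V, (fun y => v + y) '' G))
    (C : RSpace E T) {ε : ℝ} (hε : 0 < ε) :
    ∃ C' : RSpace E T, dist C' C ≤ ε ∧
      ∃ G : Set E, IsOpen G ∧ Bd f (C'.1 : Set (E × T)) ⊆ G ∧ P G := by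
  classical
  obtain ⟨e, he, hee⟩ : ∃ e : ℝ, 0 < e ∧ 3 * e ≤ ε := ⟨ε / 3, by positivity, by linarith⟩
  obtain ⟨s0⟩ := (inferInstance : Nonempty S)
  obtain ⟨t0⟩ := (inferInstance : Nonempty T)
  choose x hx using hA
  have hxb : Bornology.IsBounded (range x) := by
    have h1 : Bornology.IsBounded (range f) := (isCompact_range hf).isBounded
    obtain ⟨R, hR⟩ := hAb.exists_norm_le
    obtain ⟨M, hM⟩ := h1.exists_norm_le
    refine (isBounded_iff_forall_norm_le.2 ⟨R + M, ?_⟩)
    rintro _ ⟨t, rfl⟩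
    have h2 : x t = (x t + f (t, s0)) - f (t, s0) := by abel
    rw [h2]
    exact (norm_sub_le _ _).trans (add_le_add (hR _ (hx t s0)) (hM _ (mem_range_self _)))
  obtain ⟨N0, -, hN0f, hN0⟩ := hxb.isCompact_closure.finite_cover_balls he
  set N : Finset E := hN0f.toFinset with hNdef
  have hN : ∀ t, ∃ c ∈ N, dist (x t) c < e := fun t => by
    have := hN0 (subset_closure (mem_range_self t))
    simp only [mem_iUnion, mem_ball] at this
    obtain ⟨c, hc, hd⟩ := this
    exact ⟨c, hN0f.mem_toFinset.2 hc, hd⟩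
  obtain ⟨D0, hD0K, hD0f, hD0⟩ := C.1.isCompact.finite_cover_balls he
  set D : Finset (E × T) := hD0f.toFinset with hDdef
  have hDK : ∀ d ∈ D, d ∈ (C.1 : Set (E × T)) := fun d hd => hD0K (hD0f.mem_toFinset.1 hd)
  have hD : ∀ y ∈ (C.1 : Set (E × T)), ∃ d ∈ D, dist y d < e := fun y hy => by
    have := hD0 hy
    simp only [mem_iUnion, mem_ball] at this
    obtain ⟨c, hc, hd⟩ := this
    exact ⟨c, hD0f.mem_toFinset.2 hc, hd⟩
  set V : Finset E := (D ×ˢ N).image (fun p => p.1.1 - p.2) with hV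
  obtain ⟨G, hGo, hAG, hPG⟩ := hP V
  set G' : Set E := ⋃ v ∈ V, (fun y => v + y) '' G with hG'
  have hG'o : IsOpen G' := isOpen_biUnion fun v _ => (isOpenMap_add_left v) _ hGo
  have hδ : ∀ t, ∃ δ : ℝ, 0 < δ ∧ ∀ y : E, (∃ s, dist y (x t + f (t, s)) ≤ δ) → y ∈ G := by
    intro t
    have hc : IsCompact (range fun s => x t + f (t, s)) :=
      isCompact_range (by fun_prop)
    have hsub : (range fun s => x t + f (t, s)) ⊆ G := by
      rintro _ ⟨s, rfl⟩
      exact hAG (hx t s)
    obtain ⟨δ, hδ, h⟩ := hc.exists_thickening_subset_open hGo hsub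
    refine ⟨δ / 2, by positivity, fun y hy => h ?_⟩
    obtain ⟨s, hs⟩ := hy
    refine mem_thickening_iff.2 ⟨_, mem_range_self s, hs.trans_lt (by linarith)⟩
  choose δ hδ0 hδG using hδ
  set Q : T → Set T := fun t =>
    {t' | ∀ s, dist (f (t', s)) (f (t, s)) ≤ δ t} ∩ closedBall t (e / 2) with hQ
  have hQc : ∀ t, IsClosed (Q t) := fun t => by
    have : {t' | ∀ s, dist (f (t', s)) (f (t, s)) ≤ δ t} =
        ⋂ s, {t' | dist (f (t', s)) (f (t, s)) ≤ δ t} := by
      ext t'; simp
    refine IsClosed.inter ?_ isClosed_closedBall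
    rw [this]
    refine isClosed_iInter fun s => isClosed_le (by fun_prop) continuous_const
  have hQn : ∀ t, Q t ∈ 𝓝 t := fun t => by
    refine inter_mem ?_ (closedBall_mem_nhds _ (by positivity))
    filter_upwards [nhds_unif hf t (hδ0 t)] with t' ht' s using (ht' s).le
  obtain ⟨J, hJ⟩ := finite_cover_nhds hQn
  have hJ' : ∀ t, ∃ j ∈ J, t ∈ Q j := fun t => by
    have : t ∈ ⋃ i ∈ J, Q i := hJ ▸ mem_univ t
    simpa only [mem_iUnion, exists_prop] using this
  choose c hcN hcd using hN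
  -- pairs (j, d) with the direction of d close to j
  set W : Finset (T × (E × T)) := (J ×ˢ D).filter (fun p => dist p.1 p.2.2 ≤ 3 * e / 2) with hW
  set p : T → E × T → E := fun j d => (d.1 - c j) + x j with hp
  set K1 : Set (E × T) := ⋃ w ∈ W, ({p w.1 w.2} : Set E) ×ˢ Q w.1 with hK1
  have hK1c : IsCompact K1 :=
    W.finite_toSet.isCompact_biUnion fun w _ => isCompact_singleton.prod (hQc w.1).isCompact
  have hK1u : ∀ t : T, ∃ y : E, (y, t) ∈ K1 := fun t => by
    obtain ⟨y, hy⟩ := C.2 t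
    obtain ⟨d, hd, hyd⟩ := hD (y, t) hy
    obtain ⟨j, hj, htj⟩ := hJ' t
    have h1 : dist t d.2 < e := lt_of_le_of_lt (le_max_right _ _) (by rwa [Prod.dist_eq] at hyd)
    have h2 : dist t j ≤ e / 2 := htj.2
    have h3 : (j, d) ∈ W := by
      refine Finset.mem_filter.2 ⟨Finset.mem_product.2 ⟨hj, hd⟩, ?_⟩
      have := dist_triangle j t d.2
      rw [dist_comm j t] at this
      show dist j d.2 ≤ 3 * e / 2
      linarith
    exact ⟨p j d, mem_biUnion h3 ⟨rfl, htj⟩⟩
  have hK1n : K1.Nonempty := by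
    obtain ⟨y, hy⟩ := hK1u t0
    exact ⟨_, hy⟩
  have hK1G : Bd f K1 ⊆ G' := by
    rintro y ⟨q, hq, s, rfl⟩
    simp only [hK1, mem_iUnion, exists_prop] at hq
    obtain ⟨w, hw, hq1, hq2⟩ := hq
    rw [mem_singleton_iff] at hq1
    have hw' := Finset.mem_product.1 (Finset.mem_filter.1 hw).1
    refine mem_biUnion (show w.2.1 - c w.1 ∈ V from ?_) ⟨x w.1 + f (q.2, s), ?_, ?_⟩
    · exact Finset.mem_image.2 ⟨(w.2, c w.1), Finset.mem_product.2 ⟨hw'.2, hcN _⟩, rfl⟩
    · refine hδG w.1 _ ⟨s, ?_⟩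
      rw [dist_add_left]
      exact hq2.1 s
    · rw [hq1]; simp only [hp]; abel
  refine ⟨⟨⟨⟨K1, hK1c⟩, hK1n⟩, hK1u⟩, ?_, G', hG'o, hK1G, hPG⟩
  rw [Subtype.dist_eq, NonemptyCompacts.dist_eq]
  refine hausdorffDist_le_of_mem_dist hε.le ?_ ?_
  · intro q hq
    have hq' : q ∈ ⋃ w ∈ W, ({p w.1 w.2} : Set E) ×ˢ Q w.1 := hq
    simp only [mem_iUnion, exists_prop] at hq'
    obtain ⟨w, hw, hq1, hq2⟩ := hq'
    rw [mem_singleton_iff] at hq1
    have hwf := Finset.mem_filter.1 hw
    have hw' := Finset.mem_product.1 hwf.1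
    refine ⟨w.2, hDK _ hw'.2, ?_⟩
    rw [Prod.dist_eq, max_le_iff]
    constructor
    · rw [hq1]
      have h1 : dist (p w.1 w.2) w.2.1 = dist (x w.1) (c w.1) := by
        rw [dist_eq_norm, dist_eq_norm]; congr 1; simp only [hp]; abel
      rw [h1]
      linarith [hcd w.1]
    · have h1 : dist q.2 w.1 ≤ e / 2 := hq2.2
      have h2 : dist w.1 w.2.2 ≤ 3 * e / 2 := hwf.2
      linarith [dist_triangle q.2 w.1 w.2.2]
  · intro y hy
    obtain ⟨d, hd, hyd⟩ := hD y hy
    obtain ⟨j, hj, htj⟩ := hJ' d.2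
    have h2 : dist d.2 j ≤ e / 2 := htj.2
    have h3 : (j, d) ∈ W := by
      refine Finset.mem_filter.2 ⟨Finset.mem_product.2 ⟨hj, hd⟩, ?_⟩
      rw [dist_comm] at h2
      show dist j d.2 ≤ 3 * e / 2
      linarith
    refine ⟨(p j d, d.2), mem_biUnion h3 ⟨rfl, htj⟩, ?_⟩
    have h4 : dist d (p j d, d.2) ≤ e := by
      rw [Prod.dist_eq, max_le_iff]
      constructor
      · have h1 : dist d.1 (p j d) = dist (c j) (x j) := by
          rw [dist_eq_norm, dist_eq_norm]; congr 1; simp only [hp]; abel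
        rw [h1, dist_comm]
        exact (hcd j).le
      · simpa using he.le
    linarith [dist_triangle y d (p j d, d.2)]

theorem residual_good_rel {f : T × S → E} (hf : Continuous f) (P : Set E → Prop) {A : Set E}
    (hA : IsUniv f A) (hAb : Bornology.IsBounded A)
    (hP : ∀ V : Finset E, ∃ G : Set E, IsOpen G ∧ A ⊆ G ∧ P (⋃ v ∈ V, (fun y => v + y) '' G)) :
    ∀ᶠ C : RSpace E T in residual (RSpace E T),
      ∃ G : Set E, IsOpen G ∧ Bd f (C.1 : Set (E × T)) ⊆ G ∧ P G := by
  refine residual_of_dense_open ?_ ?_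
  · have h : {C : RSpace E T | ∃ G : Set E, IsOpen G ∧ Bd f (C.1 : Set (E × T)) ⊆ G ∧ P G} =
        ⋃ (G : Set E) (_ : IsOpen G) (_ : P G),
          (Subtype.val : RSpace E T → NonemptyCompacts (E × T)) ⁻¹'
            {C | (C : Set (E × T)) ⊆ {p : E × T | ∀ s : S, p.1 + f (p.2, s) ∈ G}} := by
      ext C
      simp only [mem_setOf_eq, mem_iUnion, mem_preimage, exists_prop]
      constructor
      · rintro ⟨G, h1, h2, h3⟩
        exact ⟨G, h1, h3, fun p hp s => h2 ⟨p, hp, s, rfl⟩⟩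
      · rintro ⟨G, h1, h3, h2⟩
        refine ⟨G, h1, ?_, h3⟩
        rintro _ ⟨p, hp, s, rfl⟩
        exact h2 hp s
    rw [h]
    refine isOpen_iUnion fun G => isOpen_iUnion fun hG => isOpen_iUnion fun _ =>
      (isOpen_subset_open' ?_).preimage continuous_subtype_val
    rw [isOpen_iff_mem_nhds]
    intro p hp
    have h1 := (isCompact_univ (X := S)).eventually_forall_of_forall_eventually
      (x₀ := p) (P := fun (q : E × T) s => q.1 + f (q.2, s) ∈ G) (fun s _ => by
        have hc : Continuous fun z : (E × T) × S => z.1.1 + f (z.1.2, z.2) := by fun_prop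
        exact hc.continuousAt.eventually (hG.mem_nhds (hp s)))
    filter_upwards [h1] with q hq s using hq s (mem_univ s)
  · rw [Metric.dense_iff]
    intro C r hr
    obtain ⟨C', hd, hG⟩ := exists_good_rel hf P hA hAb hP C (half_pos hr)
    exact ⟨C', mem_ball.2 (lt_of_le_of_lt hd (half_lt_self hr)), hG⟩

end Pool.Agent.Helper184.TM
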