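import Pool.Agent.Helper184.TM.Kakeya

/-!
Uniformity for free.  A version of the density step in which the small open sets need not
contain a common universal set.
-/

open TopologicalSpace Metric Set Filter MeasureTheory
open scoped ENNReal NNReal Topology

namespace Pool.Agent.Helper184.TM

section general

variable {E : Type*} [NormedAddCommGroup E] [ProperSpace E]
variable {T S : Type*} [TopologicalSpace T] [CompactSpace T] [Nonempty T]
  [TopologicalSpace S] [CompactSpace S] [Nonempty S]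

theorem exists_good2 {f : T × S → E} (hf : Continuous f) (P : Set E → Prop) {R : ℝ}
    (hP : ∀ V : Finset E, ∃ G : Set E, IsOpen G ∧ (∀ t, ∃ x : E, ‖x‖ ≤ R ∧ ∀ s, x + f (t, s) ∈ G) ∧
      P (⋃ v ∈ V, (fun y => v + y) '' G))
    (K : NonemptyCompacts E) (hK : IsUniv f (K : Set E)) {ε : ℝ} (hε : 0 < ε) :
    ∃ K' : NonemptyCompacts E, IsUniv f (K' : Set E) ∧ dist K' K ≤ ε ∧
      ∃ G : Set E, IsOpen G ∧ (K' : Set E) ⊆ G ∧ P G := by
  classical
  obtain ⟨e, he, hee⟩ : ∃ e : ℝ, 0 < e ∧ 3 * e ≤ ε := ⟨ε / 3, by positivity, by linarith⟩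
  obtain ⟨s0⟩ := (inferInstance : Nonempty S)
  obtain ⟨t0⟩ := (inferInstance : Nonempty T)
  choose k hk using hK
  obtain ⟨C0, -, hC0f, hC0⟩ := (isCompact_closedBall (0 : E) R).finite_cover_balls he
  set C : Finset E := hC0f.toFinset with hCdef
  have hC : ∀ y : E, ‖y‖ ≤ R → ∃ c ∈ C, dist y c < e := fun y hy => by
    have := hC0 (mem_closedBall_zero_iff.2 hy)
    simp only [mem_iUnion, mem_ball] at this
    obtain ⟨c, hc, hd⟩ := this
    exact ⟨c, hC0f.mem_toFinset.2 hc, hd⟩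
  obtain ⟨I, hI⟩ := finite_cover_nhds (fun t => nhds_unif hf t he)
  have hI' : ∀ t, ∃ i ∈ I, ∀ s, dist (f (t, s)) (f (i, s)) < e := fun t => by
    have : t ∈ ⋃ i ∈ I, {t' | ∀ s, dist (f (t', s)) (f (i, s)) < e} := hI ▸ mem_univ t
    simpa only [mem_iUnion, exists_prop, mem_setOf_eq] using this
  obtain ⟨D0, hD0K, hD0f, hD0⟩ := K.isCompact.finite_cover_balls he
  set D : Finset E := hD0f.toFinset with hDdef
  have hDK : ∀ d ∈ D, d ∈ (K : Set E) := fun d hd => hD0K (hD0f.mem_toFinset.1 hd)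
  have hD : ∀ y ∈ (K : Set E), ∃ d ∈ D, dist y d < e := fun y hy => by
    have := hD0 hy
    simp only [mem_iUnion, mem_ball] at this
    obtain ⟨c, hc, hd⟩ := this
    exact ⟨c, hD0f.mem_toFinset.2 hc, hd⟩
  set V : Finset E := (I ×ˢ C).image (fun p => k p.1 - p.2) ∪
    (D ×ˢ C).image (fun p => p.1 - p.2 - f (t0, s0)) with hV
  obtain ⟨G, hGo, hAG, hPG⟩ := hP V
  choose x hxR hx using hAG
  set G' : Set E := ⋃ v ∈ V, (fun y => v + y) '' G with hG'
  have hG'o : IsOpen G' := isOpen_biUnion fun v _ => (isOpenMap_add_left v) _ hGo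
  have hδ : ∀ t, ∃ δ : ℝ, 0 < δ ∧ δ ≤ e ∧ ∀ y : E, (∃ s, dist y (x t + f (t, s)) ≤ δ) → y ∈ G := by
    intro t
    have hc : IsCompact (range fun s => x t + f (t, s)) :=
      isCompact_range (by fun_prop)
    have hsub : (range fun s => x t + f (t, s)) ⊆ G := by
      rintro _ ⟨s, rfl⟩
      exact hx t s
    obtain ⟨δ, hδ, h⟩ := hc.exists_thickening_subset_open hGo hsub
    refine ⟨min (δ / 2) e, by positivity, min_le_right _ _, fun y hy => h ?_⟩
    obtain ⟨s, hs⟩ := hy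
    refine mem_thickening_iff.2 ⟨_, mem_range_self s, hs.trans_lt ?_⟩
    exact (min_le_left _ _).trans_lt (by linarith)
  choose δ hδ0 hδe hδG using hδ
  set Q : T → Set T := fun t => {t' | ∀ s, dist (f (t', s)) (f (t, s)) ≤ δ t} with hQ
  have hQc : ∀ t, IsClosed (Q t) := fun t => by
    have : Q t = ⋂ s, {t' | dist (f (t', s)) (f (t, s)) ≤ δ t} := by
      ext t'; simp [hQ]
    rw [this]
    refine isClosed_iInter fun s => isClosed_le (by fun_prop) continuous_const
  have hQn : ∀ t, Q t ∈ 𝓝 t := fun t => by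
    filter_upwards [nhds_unif hf t (hδ0 t)] with t' ht' s using (ht' s).le
  obtain ⟨J, hJ⟩ := finite_cover_nhds hQn
  have hJ' : ∀ t, ∃ j ∈ J, t ∈ Q j := fun t => by
    have : t ∈ ⋃ i ∈ J, Q i := hJ ▸ mem_univ t
    simpa only [mem_iUnion, exists_prop] using this
  choose i hiI hid using hI'
  choose c hcC hcd using fun t => hC (x t) (hxR t)
  set p : T → E := fun j => (k (i j) - c j) + x j with hp
  set nd : E → E := fun d => d - c t0 + x t0 with hnd
  set K1 : Set E := (nd '' (D : Set E)) ∪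
    ⋃ j ∈ J, (fun q : T × S => p j + f q) '' (Q j ×ˢ univ) with hK1
  have hK1c : IsCompact K1 := by
    refine (D.finite_toSet.image nd).isCompact.union
      (J.finite_toSet.isCompact_biUnion fun j _ => ?_)
    exact ((hQc j).isCompact.prod isCompact_univ).image (by fun_prop)
  have hmem : ∀ j ∈ J, ∀ t ∈ Q j, ∀ s, p j + f (t, s) ∈ K1 := fun j hj t ht s => by
    refine Or.inr (mem_biUnion hj ⟨(t, s), ⟨ht, mem_univ _⟩, rfl⟩)
  have hK1u : IsUniv f K1 := fun t => by
    obtain ⟨j, hj, htj⟩ := hJ' t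
    exact ⟨p j, fun s => hmem j hj t htj s⟩
  have hK1n : K1.Nonempty := by
    obtain ⟨y, hy⟩ := hK1u t0
    exact ⟨_, hy s0⟩
  have hndd : ∀ d, dist (nd d) d < e := fun d => by
    have h1 : dist (nd d) d = dist (x t0) (c t0) := by
      rw [dist_eq_norm, dist_eq_norm]; congr 1; simp only [hnd]; abel
    rw [h1]; exact hcd t0
  have hK1G : K1 ⊆ G' := by
    rintro y (hy | hy)
    · obtain ⟨d, hd, rfl⟩ := hy
      refine mem_biUnion (show d - c t0 - f (t0, s0) ∈ V from ?_) ⟨x t0 + f (t0, s0), hx t0 s0, ?_⟩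
      · exact Finset.mem_union_right _ (Finset.mem_image.2 ⟨(d, c t0),
          Finset.mem_product.2 ⟨hd, hcC t0⟩, rfl⟩)
      · simp only [hnd]; abel
    · simp only [mem_iUnion, exists_prop] at hy
      obtain ⟨j, hj, ⟨t, s⟩, ⟨htj, -⟩, rfl⟩ := hy
      refine mem_biUnion (show k (i j) - c j ∈ V from ?_) ⟨x j + f (t, s), ?_, ?_⟩
      · refine Finset.mem_union_left _ (Finset.mem_image.2 ⟨(i j, c j), ?_, rfl⟩)
        exact Finset.mem_product.2 ⟨hiI j, hcC j⟩
      · refine hδG j _ ⟨s, ?_⟩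
        rw [dist_add_left]
        exact htj s
      · simp only [hp]; abel
  refine ⟨⟨⟨K1, hK1c⟩, hK1n⟩, hK1u, ?_, G', hG'o, hK1G, hPG⟩
  rw [NonemptyCompacts.dist_eq]
  refine hausdorffDist_le_of_mem_dist hε.le ?_ ?_
  · rintro y (hy | hy)
    · obtain ⟨d, hd, rfl⟩ := hy
      exact ⟨d, hDK d hd, by linarith [hndd d]⟩
    · simp only [mem_iUnion, exists_prop] at hy
      obtain ⟨j, hj, ⟨t, s⟩, ⟨htj, -⟩, rfl⟩ := hy
      refine ⟨k (i j) + f (i j, s), hk (i j) s, ?_⟩
      have h1 : dist (p j + f (t, s)) (k (i j) + f (i j, s)) =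
          ‖(x j - c j) + ((f (t, s) - f (j, s)) + (f (j, s) - f (i j, s)))‖ := by
        rw [dist_eq_norm]; congr 1; simp only [hp]; abel
      show dist (p j + f (t, s)) (k (i j) + f (i j, s)) ≤ ε
      rw [h1]
      have h2 : ‖x j - c j‖ ≤ e := by rw [← dist_eq_norm]; exact (hcd j).le
      have h3 : ‖f (t, s) - f (j, s)‖ ≤ e := by
        rw [← dist_eq_norm]; exact (htj s).trans (hδe j)
      have h4 : ‖f (j, s) - f (i j, s)‖ ≤ e := by rw [← dist_eq_norm]; exact (hid j s).le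
      calc _ ≤ ‖x j - c j‖ + (‖f (t, s) - f (j, s)‖ + ‖f (j, s) - f (i j, s)‖) :=
            (norm_add_le _ _).trans (by gcongr; exact norm_add_le _ _)
        _ ≤ e + (e + e) := by gcongr
        _ ≤ ε := by linarith
  · intro y hy
    obtain ⟨d, hd, hyd⟩ := hD y hy
    refine ⟨nd d, Or.inl ⟨d, hd, rfl⟩, ?_⟩
    have := hndd d
    rw [dist_comm] at this
    linarith [dist_triangle y d (nd d)]

theorem residual_good2 {f : T × S → E} (hf : Continuous f) (P : Set E → Prop) {R : ℝ}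
    (hP : ∀ V : Finset E, ∃ G : Set E, IsOpen G ∧ (∀ t, ∃ x : E, ‖x‖ ≤ R ∧ ∀ s, x + f (t, s) ∈ G) ∧
      P (⋃ v ∈ V, (fun y => v + y) '' G)) :
    ∀ᶠ K : USpace f in residual (USpace f),
      ∃ G : Set E, IsOpen G ∧ ((K.1 : NonemptyCompacts E) : Set E) ⊆ G ∧ P G := by
  refine residual_of_dense_open ?_ ?_
  · have h : {K : USpace f | ∃ G : Set E, IsOpen G ∧ (K.1 : Set E) ⊆ G ∧ P G} =
        ⋃ (G : Set E) (_ : IsOpen G) (_ : P G),
          (Subtype.val : USpace f → NonemptyCompacts E) ⁻¹' {K | (K : Set E) ⊆ G} := by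
      ext K
      simp only [mem_setOf_eq, mem_iUnion, mem_preimage, exists_prop]
      constructor
      · rintro ⟨G, h1, h2, h3⟩; exact ⟨G, h1, h3, h2⟩
      · rintro ⟨G, h1, h3, h2⟩; exact ⟨G, h1, h2, h3⟩
    rw [h]
    exact isOpen_iUnion fun G => isOpen_iUnion fun hG => isOpen_iUnion fun _ =>
      (isOpen_subset_open hG).preimage continuous_subtype_val
  · rw [Metric.dense_iff]
    intro K r hr
    obtain ⟨K', hu, hd, hG⟩ := exists_good2 hf P hP K.1 K.2 (half_pos hr)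
    refine ⟨⟨K', hu⟩, ?_, hG⟩
    rw [mem_ball, Subtype.dist_eq]
    exact lt_of_le_of_lt hd (half_lt_self hr)

end general

section lattice

variable {n : ℕ}

/-- the integer point with given coordinates -/
noncomputable def zpt (z : Fin n → ℤ) : EuclideanSpace ℝ (Fin n) :=
  WithLp.toLp 2 (fun i => (z i : ℝ))

/-- rounding down -/
noncomputable def rd (x : EuclideanSpace ℝ (Fin n)) : Fin n → ℤ := fun i => ⌊x i⌋

theorem norm_sub_rd_le (x : EuclideanSpace ℝ (Fin n)) : ‖x - zpt (rd x)‖ ≤ n := by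
  have h1 : ∀ i, ‖(x - zpt (rd x)) i‖ ≤ 1 := fun i => by
    have h2 : (x - zpt (rd x)) i = x i - (⌊x i⌋ : ℝ) := by simp [zpt, rd]
    rw [h2, Real.norm_eq_abs, abs_of_nonneg (by linarith [Int.floor_le (x i)])]
    linarith [Int.lt_floor_add_one (x i)]
  rw [EuclideanSpace.norm_eq]
  calc √(∑ i, ‖(x - zpt (rd x)) i‖ ^ 2) ≤ √(∑ _i : Fin n, (1 : ℝ)) := by
        refine Real.sqrt_le_sqrt (Finset.sum_le_sum fun i _ => ?_)
        have := h1 i
        have h3 := norm_nonneg ((x - zpt (rd x)) i)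
        nlinarith
    _ = √(n : ℝ) := by simp
    _ ≤ √((n : ℝ) ^ 2) := by
        refine Real.sqrt_le_sqrt ?_
        have : (n : ℝ) ≤ (n : ℝ) ^ 2 := by
          rcases Nat.eq_zero_or_pos n with h | h
          · simp [h]
          · have : (1 : ℝ) ≤ n := by exact_mod_cast h
            nlinarith
        exact this
    _ = n := Real.sqrt_sq (by positivity)

/-- The integer points close to a given point: at most `(2 M + 1) ^ n`. -/
theorem card_near (M : ℕ) (y : EuclideanSpace ℝ (Fin n)) :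
    ∃ Z : Finset (Fin n → ℤ), Z.card ≤ (2 * M + 2) ^ n ∧
      ∀ z : Fin n → ℤ, ‖y - zpt z‖ ≤ M → z ∈ Z := by
  classical
  refine ⟨Fintype.piFinset fun i => Finset.Icc (⌊y i⌋ - M) (⌊y i⌋ + M + 1), ?_, ?_⟩
  · rw [Fintype.card_piFinset]
    have h1 : ∀ i, (Finset.Icc (⌊y i⌋ - M) (⌊y i⌋ + M + 1)).card = 2 * M + 2 := fun i => by
      rw [Int.card_Icc]; omega
    simp [h1]
  · intro z hz
    rw [Fintype.mem_piFinset]
    intro i
    have h1 : |y i - (z i : ℝ)| ≤ M := by
      have h2 : (y - zpt z) i = y i - (z i : ℝ) := by simp [zpt]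
      rw [← h2, ← Real.norm_eq_abs]
      exact (PiLp.norm_apply_le _ i).trans hz
    rw [abs_le] at h1
    rw [Finset.mem_Icc]
    constructor
    · have h3 : ((⌊y i⌋ - M : ℤ) : ℝ) ≤ (z i : ℝ) := by
        push_cast
        linarith [Int.floor_le (y i)]
      exact_mod_cast h3
    · have h3 : ((z i : ℤ) : ℝ) < ((⌊y i⌋ + M + 1 : ℤ) : ℝ) := by
        push_cast
        linarith [Int.lt_floor_add_one (y i)]
      have h4 : z i < ⌊y i⌋ + M + 1 := by exact_mod_cast h3
      exact h4.le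

end lattice

end Pool.Agent.Helper184.TM
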