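import Pool.Agent.Helper184.TM.Unif

/-!
Uniform lower bounds for Kakeya sets from non-uniform ones.
-/

open TopologicalSpace Metric Set Filter MeasureTheory
open scoped ENNReal NNReal Topology

namespace Pool.Agent.Helper184.TM

variable {n : ℕ} {D : Set (EuclideanSpace ℝ (Fin n))}

theorem exists_small {a ε : ℝ≥0∞} (ha : 0 < a) (hε : 0 < ε) (N : ℕ) :
    ∃ η : ℝ≥0∞, 0 < η ∧ η ≠ ∞ ∧ η < a ∧ (N : ℝ≥0∞) * η ≤ ε := by
  have h1 : 0 < ε / ((N : ℝ≥0∞) + 1) := by
    refine ENNReal.div_pos hε.ne' ?_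
    exact ENNReal.add_ne_top.2 ⟨ENNReal.natCast_ne_top _, ENNReal.one_ne_top⟩
  obtain ⟨η, h2, h3⟩ := ENNReal.lt_iff_exists_nnreal_btwn.1 (lt_min ha h1)
  refine ⟨η, h2, ENNReal.coe_ne_top, h3.trans_le (min_le_left _ _), ?_⟩
  calc (N : ℝ≥0∞) * η ≤ ((N : ℝ≥0∞) + 1) * (ε / ((N : ℝ≥0∞) + 1)) := by
        gcongr
        · exact le_self_add
        · exact h3.le.trans (min_le_right _ _)
    _ ≤ ε := ENNReal.mul_div_le

theorem norm_seg_le (hsph : D ⊆ sphere 0 1) (p : D × Icc (0 : ℝ) 1) : ‖seg D p‖ ≤ 1 := by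
  have h1 : ‖(p.1 : EuclideanSpace ℝ (Fin n))‖ = 1 := by simpa using hsph p.1.2
  simp only [seg]
  rw [norm_smul, h1, mul_one, Real.norm_of_nonneg p.2.2.1]
  exact p.2.2.2

theorem unif_gauge_hyp (hsph : D ⊆ sphere 0 1) {h : ℝ≥0∞ → ℝ≥0∞}
    (hh : ∀ x, ContinuousWithinAt h (Ioi x) x) (hm : Monotone h) (hp : ∀ x, 0 < x → 0 < h x)
    (hA : ∀ c : ℝ≥0∞, 0 < c → ∃ A : Set (EuclideanSpace ℝ (Fin n)), HasSegments D A ∧
      ∃ U : ℕ → Set (EuclideanSpace ℝ (Fin n)), A ⊆ ⋃ k, U k ∧ ∑' k, h (ediam (U k)) < c)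
    {r ε : ℝ≥0∞} (hr : 0 < r) (hε : 0 < ε) (V : Finset (EuclideanSpace ℝ (Fin n))) :
    ∃ G : Set (EuclideanSpace ℝ (Fin n)), IsOpen G ∧
      (∀ t : D, ∃ x : EuclideanSpace ℝ (Fin n), ‖x‖ ≤ n ∧ ∀ s : Icc (0 : ℝ) 1, x + seg D (t, s) ∈ G) ∧
      pr h r (⋃ v ∈ V, (fun y => v + y) '' G) ≤ ε := by
  classical
  set r' : ℝ≥0∞ := min r 1 with hr'
  have hr'0 : 0 < r' := lt_min hr one_pos
  have hr't : r' ≠ ∞ := ne_top_of_le_ne_top ENNReal.one_ne_top (min_le_right _ _)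
  have hq0 : 0 < r' / 2 := ENNReal.half_pos hr'0.ne'
  have hqt : r' / 2 ≠ ∞ := (ENNReal.div_lt_top hr't (by norm_num)).ne
  set C : ℕ := (2 * (n + 3) + 2) ^ n with hC
  obtain ⟨η, hη0, hηt, hηh, hηε⟩ := exists_small (hp _ hq0) hε (V.card * C * 2)
  obtain ⟨A, hAs, U, hAU, hUs⟩ := hA η hη0
  have hUd : ∀ k, ediam (U k) ≤ r' / 2 := fun k => by
    by_contra hcon
    rw [not_le] at hcon
    have h1 : h (r' / 2) ≤ h (ediam (U k)) := hm hcon.le
    have h2 : h (ediam (U k)) ≤ ∑' k, h (ediam (U k)) := ENNReal.le_tsum k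
    exact absurd (h1.trans (h2.trans hUs.le)) (not_le.2 hηh)
  obtain ⟨w, hw0, hw⟩ := ENNReal.exists_pos_sum_of_countable' hη0.ne' ℕ
  choose W hWo hUW hWd hWh using fun k => enlarge (E := EuclideanSpace ℝ (Fin n)) hh hq0 hqt
    (hUd k) (hw0 k)
  have hWd' : ∀ k, ediam (W k) ≤ r' := fun k => (hWd k).trans (ENNReal.add_halves r').le
  have hWs : ∑' k, (⨆ _ : (W k).Nonempty, h (ediam (W k))) ≤ 2 * η := by
    calc ∑' k, (⨆ _ : (W k).Nonempty, h (ediam (W k)))
        ≤ ∑' k, (h (ediam (U k)) + w k) := ENNReal.tsum_le_tsum fun k =>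
          (hWh k).trans (add_le_add (iSup_le fun _ => le_rfl) le_rfl)
      _ = (∑' k, h (ediam (U k))) + ∑' k, w k := ENNReal.tsum_add
      _ ≤ η + η := add_le_add hUs.le hw.le
      _ = 2 * η := by ring
  -- nearby lattice points
  have hZ : ∀ k, ∃ Z : Finset (Fin n → ℤ), Z.card ≤ C ∧ ∀ z : Fin n → ℤ,
      (∃ y ∈ W k, ‖y - zpt z‖ ≤ (n : ℝ) + 1) → z ∈ Z := by
    intro k
    rcases (W k).eq_empty_or_nonempty with he | ⟨y0, hy0⟩
    · exact ⟨∅, by simp, by rintro z ⟨y, hy, -⟩; rw [he] at hy; exact absurd hy (by simp)⟩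
    · obtain ⟨Z, hZc, hZ⟩ := card_near (n + 3) y0
      refine ⟨Z, hZc, ?_⟩
      rintro z ⟨y, hy, hyz⟩
      refine hZ z ?_
      have h1 : dist y0 y ≤ 1 := by
        have h2 : edist y0 y ≤ 1 :=
          (edist_le_ediam_of_mem hy0 hy).trans ((hWd' k).trans (min_le_right _ _))
        rw [edist_dist] at h2
        exact (ENNReal.ofReal_le_one).1 h2
      have h3 : ‖y0 - zpt z‖ ≤ ‖y0 - y‖ + ‖y - zpt z‖ := by
        have : y0 - zpt z = (y0 - y) + (y - zpt z) := by abel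
        rw [this]; exact norm_add_le _ _
      rw [← dist_eq_norm y0 y] at h3
      push_cast
      linarith
  choose Z hZc hZ using hZ
  refine ⟨⋃ k, ⋃ z ∈ Z k, (fun y => -zpt z + y) '' W k, ?_, ?_, ?_⟩
  · exact isOpen_iUnion fun k => isOpen_biUnion fun z _ => (isOpenMap_add_left _) _ (hWo k)
  · intro t
    obtain ⟨a, ha⟩ := hAs t t.2
    refine ⟨a - zpt (rd a), norm_sub_rd_le a, fun s => ?_⟩
    have h1 : a + seg D (t, s) ∈ A := ha s s.2
    obtain ⟨k, hk⟩ := mem_iUnion.1 (hAU h1)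
    have h2 : a + seg D (t, s) ∈ W k := hUW k hk
    have h3 : rd a ∈ Z k := by
      refine hZ k _ ⟨_, h2, ?_⟩
      have h4 : a + seg D (t, s) - zpt (rd a) = (a - zpt (rd a)) + seg D (t, s) := by abel
      rw [h4]
      exact (norm_add_le _ _).trans (add_le_add (norm_sub_rd_le a) (norm_seg_le hsph _))
    refine mem_iUnion.2 ⟨k, mem_biUnion h3 ⟨_, h2, ?_⟩⟩
    simp only []; abel
  · have h1 : ∀ v ∈ V, pr h r ((fun y => v + y) '' ⋃ k, ⋃ z ∈ Z k, (fun y => -zpt z + y) '' W k) ≤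
        (C : ℝ≥0∞) * (2 * η) := by
      intro v _
      have h2 : (fun y => v + y) '' (⋃ k, ⋃ z ∈ Z k, (fun y => -zpt z + y) '' W k) =
          ⋃ k, ⋃ z ∈ Z k, (fun y => (v - zpt z) + y) '' W k := by
        have h0 : ∀ (z : Fin n → ℤ) (x : EuclideanSpace ℝ (Fin n)),
            v + (-zpt z + x) = (v - zpt z) + x := fun z x => by abel
        simp only [image_iUnion, image_image, h0]
      rw [h2]
      calc pr h r (⋃ k, ⋃ z ∈ Z k, (fun y => (v - zpt z) + y) '' W k)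
          ≤ ∑' k, pr h r (⋃ z ∈ Z k, (fun y => (v - zpt z) + y) '' W k) := measure_iUnion_le _
        _ ≤ ∑' k, (C : ℝ≥0∞) * (⨆ _ : (W k).Nonempty, h (ediam (W k))) := by
            refine ENNReal.tsum_le_tsum fun k => ?_
            calc pr h r (⋃ z ∈ Z k, (fun y => (v - zpt z) + y) '' W k)
                ≤ ∑ z ∈ Z k, pr h r ((fun y => (v - zpt z) + y) '' W k) :=
                  measure_biUnion_finset_le _ _
              _ ≤ ∑ z ∈ Z k, (⨆ _ : (W k).Nonempty, h (ediam (W k))) :=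
                  Finset.sum_le_sum fun z _ =>
                    pr_translate_le ((hWd' k).trans (min_le_left _ _)) _
              _ = ((Z k).card : ℝ≥0∞) * (⨆ _ : (W k).Nonempty, h (ediam (W k))) := by simp
              _ ≤ (C : ℝ≥0∞) * (⨆ _ : (W k).Nonempty, h (ediam (W k))) := by
                  gcongr; exact_mod_cast hZc k
        _ = (C : ℝ≥0∞) * ∑' k, (⨆ _ : (W k).Nonempty, h (ediam (W k))) := ENNReal.tsum_mul_left
        _ ≤ (C : ℝ≥0∞) * (2 * η) := by gcongr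
    calc pr h r (⋃ v ∈ V, (fun y => v + y) '' ⋃ k, ⋃ z ∈ Z k, (fun y => -zpt z + y) '' W k)
        ≤ ∑ v ∈ V, pr h r ((fun y => v + y) '' ⋃ k, ⋃ z ∈ Z k, (fun y => -zpt z + y) '' W k) :=
          measure_biUnion_finset_le _ _
      _ ≤ ∑ v ∈ V, (C : ℝ≥0∞) * (2 * η) := Finset.sum_le_sum h1
      _ = ((V.card * C * 2 : ℕ) : ℝ≥0∞) * η := by
          rw [Finset.sum_const, nsmul_eq_mul]; push_cast; ring
      _ ≤ ε := hηε

/-- Strong zero-one law. -/
theorem unif_gauge (hD : IsClosed D) (hne : D.Nonempty) (hsph : D ⊆ sphere 0 1)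
    {h : ℝ≥0∞ → ℝ≥0∞} (hh : ∀ x, ContinuousWithinAt h (Ioi x) x) (hm : Monotone h)
    (hp : ∀ x, 0 < x → 0 < h x)
    (hA : ∀ c : ℝ≥0∞, 0 < c → ∃ A : Set (EuclideanSpace ℝ (Fin n)), HasSegments D A ∧
      ∃ U : ℕ → Set (EuclideanSpace ℝ (Fin n)), A ⊆ ⋃ k, U k ∧ ∑' k, h (ediam (U k)) < c) :
    ∀ᶠ K : KSpace D in residual (KSpace D),
      Measure.mkMetric h (K.1 : Set (EuclideanSpace ℝ (Fin n))) = 0 := by
  haveI := compact_dir hD hsph
  haveI : Nonempty D := hne.to_subtype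
  haveI : Nonempty (Icc (0 : ℝ) 1) := ⟨⟨0, by norm_num, by norm_num⟩⟩
  refine transfer (fun K => (hasSegments_iff D _).symm)
    (R := fun K : NonemptyCompacts (EuclideanSpace ℝ (Fin n)) =>
      Measure.mkMetric h (K : Set (EuclideanSpace ℝ (Fin n))) = 0) ?_
  have hpos : ∀ m : ℕ, 0 < ((m : ℝ≥0∞) + 1)⁻¹ := fun m =>
    ENNReal.inv_pos.2 (ENNReal.add_ne_top.2 ⟨ENNReal.natCast_ne_top _, ENNReal.one_ne_top⟩)
  have h1 : ∀ m : ℕ, ∀ᶠ K : USpace (seg D) in residual (USpace (seg D)),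
      ∃ G : Set (EuclideanSpace ℝ (Fin n)), IsOpen G ∧
        ((K.1 : NonemptyCompacts (EuclideanSpace ℝ (Fin n))) : Set (EuclideanSpace ℝ (Fin n))) ⊆ G ∧
        pr h ((m : ℝ≥0∞) + 1)⁻¹ G ≤ ((m : ℝ≥0∞) + 1)⁻¹ := fun m =>
    residual_good2 (R := n) (continuous_seg D) _ fun V =>
      unif_gauge_hyp hsph hh hm hp hA (hpos m) (hpos m) V
  filter_upwards [eventually_countable_forall.2 h1] with K hK
  refine mk_eq_zero fun m => ?_
  obtain ⟨G, -, hG, hm⟩ := hK m
  exact (measure_mono hG).trans hm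

/-- bounded overlap of lattice balls -/
theorem sum_vol_le (W : Set (EuclideanSpace ℝ (Fin n))) (hW : IsOpen W) (M : ℕ) :
    ∑' z : Fin n → ℤ, volume (W ∩ ball (zpt z) M) ≤ ((2 * M + 2 : ℕ) ^ n : ℕ) * volume W := by
  classical
  have h1 : ∀ z : Fin n → ℤ, volume (W ∩ ball (zpt z) M) =
      ∫⁻ y in W, (ball (zpt z) (M : ℝ)).indicator (fun _ => (1 : ℝ≥0∞)) y := by
    intro z
    rw [lintegral_indicator isOpen_ball.measurableSet, setLIntegral_one,
      Measure.restrict_apply isOpen_ball.measurableSet, inter_comm]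
  simp only [h1]
  rw [← lintegral_tsum (fun z => (measurable_const.indicator isOpen_ball.measurableSet).aemeasurable)]
  calc ∫⁻ y in W, ∑' z : Fin n → ℤ, (ball (zpt z) (M : ℝ)).indicator (fun _ => (1 : ℝ≥0∞)) y
      ≤ ∫⁻ y in W, (((2 * M + 2 : ℕ) ^ n : ℕ) : ℝ≥0∞) := by
        refine lintegral_mono fun y => ?_
        obtain ⟨Z, hZc, hZ⟩ := card_near M y
        have h2 : ∀ z ∉ Z, (ball (zpt z) (M : ℝ)).indicator (fun _ => (1 : ℝ≥0∞)) y = 0 := by
          intro z hz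
          rw [indicator_of_notMem]
          intro hy
          rw [mem_ball, dist_eq_norm] at hy
          exact hz (hZ z hy.le)
        show ∑' z : Fin n → ℤ, (ball (zpt z) (M : ℝ)).indicator (fun _ => (1 : ℝ≥0∞)) y ≤ _
        rw [tsum_eq_sum h2]
        calc ∑ z ∈ Z, (ball (zpt z) (M : ℝ)).indicator (fun _ => (1 : ℝ≥0∞)) y
            ≤ ∑ z ∈ Z, (1 : ℝ≥0∞) := Finset.sum_le_sum fun z _ => indicator_le_self _ _ _
          _ = (Z.card : ℝ≥0∞) := by simp
          _ ≤ _ := by exact_mod_cast hZc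
    _ = ((2 * M + 2 : ℕ) ^ n : ℕ) * volume W := by rw [setLIntegral_const]

theorem unif_mink_hyp (hsph : D ⊆ sphere 0 1) {e e' : ℝ} (he : 0 < e) (he' : e' < e) (m : ℕ)
    (hA : ∀ c : ℝ, 0 < c → ∃ A : Set (EuclideanSpace ℝ (Fin n)), HasSegments D A ∧
      ∃ δ : ℝ, 0 < δ ∧ δ < 1 ∧ volume (thickening δ A) < ENNReal.ofReal (c * δ ^ e))
    (hne : D.Nonempty) (V : Finset (EuclideanSpace ℝ (Fin n))) :
    ∃ G : Set (EuclideanSpace ℝ (Fin n)), IsOpen G ∧
      (∀ t : D, ∃ x : EuclideanSpace ℝ (Fin n), ‖x‖ ≤ n ∧ ∀ s : Icc (0 : ℝ) 1, x + seg D (t, s) ∈ G) ∧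
      PM ((n : ℝ) - e') m (⋃ v ∈ V, (fun y => v + y) '' G) := by
  classical
  set C : ℕ := (2 * (n + 3) + 2) ^ n with hC
  set N : ℕ := V.card * C with hN
  have h1 : ∀ᶠ δ in 𝓝[>] (0 : ℝ), 0 < δ ∧ δ < 1 / ((m : ℝ) + 1) := by
    filter_upwards [Ioo_mem_nhdsGT (show (0 : ℝ) < 1 / ((m : ℝ) + 1) by positivity)] with δ hδ using hδ
  have h2 : Tendsto (fun δ : ℝ => (N : ℝ) * 2 ^ e' * δ ^ (e - e')) (𝓝[>] 0) (𝓝 0) := by
    have h3 : Tendsto (fun δ : ℝ => δ ^ (e - e')) (𝓝[>] 0) (𝓝 0) := by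
      have := (Real.continuousAt_rpow_const 0 (e - e') (Or.inr (by linarith))).tendsto
      rw [Real.zero_rpow (by linarith : e - e' ≠ 0)] at this
      exact this.mono_left nhdsWithin_le_nhds
    simpa using h3.const_mul ((N : ℝ) * 2 ^ e')
  obtain ⟨u, hu, hu'⟩ := mem_nhdsGT_iff_exists_Ioo_subset.1
    (h1.and (h2.eventually (gt_mem_nhds one_pos)))
  have hu0 : (0 : ℝ) < u := hu
  -- volume of a small ball
  set β : ℝ := (volume (ball (0 : EuclideanSpace ℝ (Fin n)) u)).toReal with hβ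
  have hβ0 : 0 < β := ENNReal.toReal_pos (measure_ball_pos volume _ hu0).ne' measure_ball_lt_top.ne
  obtain ⟨A, hAs, δ, hδ0, hδ1, hvol⟩ := hA (min β 1) (lt_min hβ0 one_pos)
  have hδu : δ < u := by
    by_contra hcon
    rw [not_lt] at hcon
    obtain ⟨v, hv⟩ := hne
    obtain ⟨a, ha⟩ := hAs v hv
    have haA := ha 0 ⟨le_rfl, zero_le_one⟩
    rw [zero_smul, add_zero] at haA
    have h3 : ball a u ⊆ thickening δ A := fun y hy =>
      mem_thickening_iff.2 ⟨a, haA, (mem_ball.1 hy).trans_le hcon⟩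
    have h4 : volume (ball (0 : EuclideanSpace ℝ (Fin n)) u) ≤ volume (thickening δ A) := by
      rw [← Measure.addHaar_ball_center volume a u]
      exact measure_mono h3
    have h5 : ENNReal.ofReal β = volume (ball (0 : EuclideanSpace ℝ (Fin n)) u) :=
      ENNReal.ofReal_toReal measure_ball_lt_top.ne
    have h6 : ENNReal.ofReal (min β 1 * δ ^ e) ≤ ENNReal.ofReal β := by
      refine ENNReal.ofReal_le_ofReal ?_
      calc min β 1 * δ ^ e ≤ β * 1 := by
            gcongr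
            · exact min_le_left _ _
            · exact Real.rpow_le_one hδ0.le hδ1.le he.le
        _ = β := mul_one β
    exact absurd (h4.trans hvol.le) (not_le.2 (by
      rw [← h5]
      refine lt_of_lt_of_le ?_ le_rfl
      exact lt_of_lt_of_le (by
        have := hvol.trans_le h6
        rw [h5] at this
        exact absurd (h4.trans_lt this) (lt_irrefl _)) le_rfl))
  obtain ⟨⟨-, hδm⟩, hδN⟩ := hu' ⟨hδ0, hδu⟩
  have hδN' : (N : ℝ) * 2 ^ e' * δ ^ (e - e') < 1 := hδN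
  have hd2 : 0 < δ / 2 := by positivity
  set A' : Set (EuclideanSpace ℝ (Fin n)) :=
    ⋃ z : Fin n → ℤ, (fun y => -zpt z + y) '' (A ∩ ball (zpt z) ((n : ℝ) + 2)) with hA'
  refine ⟨thickening (δ / 2) A', isOpen_thickening, ?_, δ / 2, hd2, by linarith, ?_⟩
  · intro t
    obtain ⟨a, ha⟩ := hAs t t.2
    refine ⟨a - zpt (rd a), norm_sub_rd_le a, fun s => self_subset_thickening hd2 _ ?_⟩
    have h3 : a + seg D (t, s) ∈ A := ha s s.2
    refine mem_iUnion.2 ⟨rd a, a + seg D (t, s), ⟨h3, ?_⟩, by simp only []; abel⟩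
    rw [mem_ball, dist_eq_norm]
    have h4 : a + seg D (t, s) - zpt (rd a) = (a - zpt (rd a)) + seg D (t, s) := by abel
    rw [h4]
    refine lt_of_le_of_lt ((norm_add_le _ _).trans
      (add_le_add (norm_sub_rd_le a) (norm_seg_le hsph _))) (by linarith)
  · refine (vol_union_le _ V _).trans ?_
    have h3 : thickening (δ / 2) (thickening (δ / 2) A') ⊆ thickening δ A' := by
      refine (thickening_thickening_subset _ _ _).trans ?_
      rw [add_halves]
    have h4 : volume (thickening δ A') ≤ (C : ℝ≥0∞) * volume (thickening δ A) := by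
      have h5 : thickening δ A' ⊆ ⋃ z : Fin n → ℤ,
          (fun y => -zpt z + y) '' (thickening δ A ∩ ball (zpt z) ((n + 3 : ℕ) : ℝ)) := by
        rw [hA', thickening_iUnion]
        refine iUnion_mono fun z => ?_
        rw [thickening_translate]
        refine image_mono (subset_inter (thickening_subset_of_subset _ inter_subset_left) ?_)
        intro y hy
        obtain ⟨w, ⟨-, hw⟩, hyw⟩ := mem_thickening_iff.1 hy
        rw [mem_ball] at hw ⊢
        push_cast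
        linarith [dist_triangle y w (zpt z)]
      calc volume (thickening δ A')
          ≤ volume (⋃ z : Fin n → ℤ,
            (fun y => -zpt z + y) '' (thickening δ A ∩ ball (zpt z) ((n + 3 : ℕ) : ℝ))) :=
            measure_mono h5
        _ ≤ ∑' z : Fin n → ℤ, volume
            ((fun y => -zpt z + y) '' (thickening δ A ∩ ball (zpt z) ((n + 3 : ℕ) : ℝ))) :=
            measure_iUnion_le _
        _ = ∑' z : Fin n → ℤ, volume (thickening δ A ∩ ball (zpt z) ((n + 3 : ℕ) : ℝ)) := by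
            congr 1; ext z
            rw [image_add_left, measure_preimage_add]
        _ ≤ (C : ℝ≥0∞) * volume (thickening δ A) := sum_vol_le _ isOpen_thickening (n + 3)
    calc (V.card : ℝ≥0∞) * volume (thickening (δ / 2) (thickening (δ / 2) A'))
        ≤ (V.card : ℝ≥0∞) * ((C : ℝ≥0∞) * ENNReal.ofReal (δ ^ e)) := by
          gcongr
          refine (measure_mono h3).trans (h4.trans ?_)
          gcongr
          refine hvol.le.trans (ENNReal.ofReal_le_ofReal ?_)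
          calc min β 1 * δ ^ e ≤ 1 * δ ^ e := by
                gcongr
                exact min_le_right _ _
            _ = δ ^ e := one_mul _
      _ = ENNReal.ofReal ((N : ℝ) * δ ^ e) := by
          rw [ENNReal.ofReal_mul (by positivity), hN]
          push_cast
          rw [← mul_assoc]
          congr 1
          rw [ENNReal.ofReal_mul (by positivity), ENNReal.ofReal_natCast, ENNReal.ofReal_natCast]
      _ ≤ ENNReal.ofReal ((δ / 2) ^ ((n : ℝ) - ((n : ℝ) - e'))) := by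
          refine ENNReal.ofReal_le_ofReal ?_
          have h6 : (n : ℝ) - ((n : ℝ) - e') = e' := by ring
          rw [h6, Real.div_rpow hδ0.le (by norm_num), le_div_iff₀ (by positivity)]
          have h7 : δ ^ e = δ ^ (e - e') * δ ^ e' := by
            rw [← Real.rpow_add hδ0]; congr 1; ring
          have h8 : 0 < δ ^ e' := Real.rpow_pos_of_pos hδ0 _
          rw [h7]
          calc (N : ℝ) * (δ ^ (e - e') * δ ^ e') * 2 ^ e'
              = ((N : ℝ) * 2 ^ e' * δ ^ (e - e')) * δ ^ e' := by ring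
            _ ≤ 1 * δ ^ e' := by gcongr
            _ = δ ^ e' := one_mul _

/-- Uniform volume bounds. -/
theorem unif_mink (hD : IsClosed D) (hne : D.Nonempty) (hsph : D ⊆ sphere 0 1) {e e' : ℝ}
    (he : 0 < e) (he' : e' < e)
    (hA : ∀ c : ℝ, 0 < c → ∃ A : Set (EuclideanSpace ℝ (Fin n)), HasSegments D A ∧
      ∃ δ : ℝ, 0 < δ ∧ δ < 1 ∧ volume (thickening δ A) < ENNReal.ofReal (c * δ ^ e)) :
    ∀ᶠ K : KSpace D in residual (KSpace D),
      lowerMinkowski (K.1 : Set (EuclideanSpace ℝ (Fin n))) ≤ (((n : ℝ) - e' : ℝ) : EReal) := by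
  haveI := compact_dir hD hsph
  haveI : Nonempty D := hne.to_subtype
  haveI : Nonempty (Icc (0 : ℝ) 1) := ⟨⟨0, by norm_num, by norm_num⟩⟩
  refine transfer (fun K => (hasSegments_iff D _).symm)
    (R := fun K : NonemptyCompacts (EuclideanSpace ℝ (Fin n)) =>
      lowerMinkowski (K : Set (EuclideanSpace ℝ (Fin n))) ≤ (((n : ℝ) - e' : ℝ) : EReal)) ?_
  have h2 : ∀ m : ℕ, ∀ᶠ K : USpace (seg D) in residual (USpace (seg D)),
      ∃ G : Set (EuclideanSpace ℝ (Fin n)), IsOpen G ∧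
        (K.1 : Set (EuclideanSpace ℝ (Fin n))) ⊆ G ∧ PM ((n : ℝ) - e') m G :=
    fun m => residual_good2 (R := n) (continuous_seg D) _ fun V =>
      unif_mink_hyp hsph he he' m hA hne V
  filter_upwards [eventually_countable_forall.2 h2] with K hK
  refine lowerMinkowski_le K.1.nonempty K.1.isCompact.isBounded ?_
  rw [frequently_iff]
  intro U hU
  obtain ⟨u, hu, hu'⟩ := mem_nhdsGT_iff_exists_Ioo_subset.1 hU
  obtain ⟨m, hm⟩ := exists_nat_one_div_lt (show (0 : ℝ) < u from hu)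
  obtain ⟨G, -, hKG, δ, hδ0, hδm, hv⟩ := hK m
  exact ⟨δ, hu' ⟨hδ0, hδm.trans hm⟩, (measure_mono (thickening_subset_of_subset _ hKG)).trans hv⟩

end Pool.Agent.Helper184.TM
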